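import Pool.Agent.Helper76.RJ.Core

/-!
# Jets with real coefficients in windows: measure, outside spaces, linear independence
-/

set_option autoImplicit false

open Pool.Agent.H337R2 Module

namespace Pool.Agent.Helper76.RJ

open Pool.Agent.N797.PW

/-- the conclusion: the measure, uniform in the coefficients -/
def Ms (b S s D e : ℕ) : Prop :=
  ∀ C0 : ℝ, ∃ q0 : ℕ, ∀ x : ℕ → ℝ, (∀ l ≤ D, |x l| ≤ C0) → (∃ l ≤ D, 1 ≤ |x l| ∧ Even (e + l)) → ∀ q ≥ q0,
    (∃ l ≤ D, ∀ p : ℤ, (q : ℝ) ^ (-(1 / (S : ℝ))) ≤ |(q : ℝ) * x l - p|) ∨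
    ∃ j, b < j ∧ j ≤ s ∧ Odd (e + j) ∧
      ∀ p : ℤ, (q : ℝ) ^ (-(1 / (S : ℝ))) ≤ |(q : ℝ) * xj D x j - p|

/-- **The measure.** -/
theorem measure {b S s D : ℕ} (e : ℕ) (hS : 1 ≤ S) (hs : Wn (b + D) S s) : Ms b S s D e := by
  intro C0
  -- the parity
  obtain ⟨b', hb1, hb2, hb3⟩ : ∃ b', b + 1 ≤ b' ∧ b' ≤ b + 2 ∧ ∀ j, Odd (b' + j) ↔ Odd (e + j) := by
    rcases Nat.even_or_odd (b + 1 + e) with h | h
    · refine ⟨b + 1, le_rfl, by omega, fun j => ?_⟩
      have h1 : b + 1 + j = (b + 1 + e) + (e + j) - 2 * e := by omega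
      rw [h1]
      constructor
      · intro h2
        rw [Nat.odd_iff] at h2 ⊢
        rw [Nat.even_iff] at h
        omega
      · intro h2
        rw [Nat.odd_iff] at h2 ⊢
        rw [Nat.even_iff] at h
        omega
    · refine ⟨b + 2, by omega, le_rfl, fun j => ?_⟩
      constructor
      · intro h2
        rw [Nat.odd_iff] at h2 h ⊢
        omega
      · intro h2
        rw [Nat.odd_iff] at h2 h ⊢
        omega
  have hwin : ∀ b'', b'' ≤ b + 2 → 2 * pH (b'' + D) S + pB (b'' + D) S ≤ s := by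
    intro b'' hb''
    refine (win_le (b'' + D) S hS).trans (le_trans ?_ hs)
    have hL := one_le_pL S
    have hLe : Nat.log 2 S + 1 = pL S := rfl
    rw [hLe]
    have hT : 1 ≤ S ^ 2 * pL S ^ 2 := by
      have : 0 < S ^ 2 * pL S ^ 2 := by positivity
      omega
    have e1 : b'' + D + S ^ 2 * pL S ^ 2 ≤ 4 * (b + D + S ^ 2 * pL S ^ 2) := by omega
    calc 2 ^ 39 * (S ^ 2 * pL S * (b'' + D + S ^ 2 * pL S ^ 2))
        ≤ 2 ^ 39 * (S ^ 2 * pL S * (4 * (b + D + S ^ 2 * pL S ^ 2))) := by gcongr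
      _ = 2 ^ 41 * (S ^ 2 * pL S * (b + D + S ^ 2 * pL S ^ 2)) := by ring
  have hpar : ∀ b'', (∀ j, Odd (b'' + j) ↔ Odd (e + j)) → ∀ l, Even (e + l) → Even (b'' + l) := by
    intro b'' h1 l h2
    by_contra h3
    rw [Nat.not_even_iff_odd, h1, ← Nat.not_even_iff_odd] at h3
    exact h3 h2
  rcases Nat.lt_or_ge b' 2 with h2 | h2
  · -- `b' = 1`: use `3`
    have hb'1 : b' = 1 := by omega
    subst hb'1
    have hb0 : b = 0 := by omega
    subst hb0
    have hb3' : ∀ j, Odd (3 + j) ↔ Odd (e + j) := by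
      intro j
      rw [← hb3 j, Nat.odd_iff, Nat.odd_iff]
      omega
    obtain ⟨q0, hq0⟩ := core (b := 3) (S := S) (D := D) (by norm_num) hS (max C0 0) (le_max_right _ _)
    refine ⟨q0, fun x hx hx0 q hq => ?_⟩
    rcases hq0 x (fun l hl => (hx l hl).trans (le_max_left _ _)) (by
      obtain ⟨l, g1, g2, g3⟩ := hx0
      exact ⟨l, g1, g2, hpar 3 hb3' l g3⟩) q hq with h4 | ⟨j, h4, h5, h6, h7⟩
    · exact Or.inl h4
    · refine Or.inr ⟨j, by omega, h6.trans ?_, (hb3' j).1 h4, h7⟩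
      -- `3 + D ≤ 4 (D + 1)`
      refine (win_le (3 + D) S hS).trans (le_trans ?_ hs)
      have hL := one_le_pL S
      have hLe : Nat.log 2 S + 1 = pL S := rfl
      rw [hLe]
      have hT : 1 ≤ S ^ 2 * pL S ^ 2 := by
        have : 0 < S ^ 2 * pL S ^ 2 := by positivity
        omega
      have e1 : 3 + D + S ^ 2 * pL S ^ 2 ≤ 4 * (0 + D + S ^ 2 * pL S ^ 2) := by omega
      calc 2 ^ 39 * (S ^ 2 * pL S * (3 + D + S ^ 2 * pL S ^ 2))
          ≤ 2 ^ 39 * (S ^ 2 * pL S * (4 * (0 + D + S ^ 2 * pL S ^ 2))) := by gcongr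
        _ = 2 ^ 41 * (S ^ 2 * pL S * (0 + D + S ^ 2 * pL S ^ 2)) := by ring
  · obtain ⟨q0, hq0⟩ := core (b := b') (S := S) (D := D) h2 hS (max C0 0) (le_max_right _ _)
    refine ⟨q0, fun x hx hx0 q hq => ?_⟩
    rcases hq0 x (fun l hl => (hx l hl).trans (le_max_left _ _)) (by
      obtain ⟨l, g1, g2, g3⟩ := hx0
      exact ⟨l, g1, g2, hpar b' hb3 l g3⟩) q hq with h4 | ⟨j, h4, h5, h6, h7⟩
    · exact Or.inl h4
    · exact Or.inr ⟨j, by omega, h6.trans (hwin b' hb2), (hb3 j).1 h4, h7⟩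

lemma xj_smul (D : ℕ) (c : ℕ → ℝ) (r : ℝ) (j : ℕ) : xj D (fun l => r * c l) j = r * xj D c j := by
  unfold xj
  rw [Finset.mul_sum]
  refine Finset.sum_congr rfl fun l _ => ?_
  ring

/-- some jet of the window is not in a given rational space of small dimension which contains the coefficients -/
theorem outside {b S s D e : ℕ} (hM : Ms b S s D e) (c : ℕ → ℝ) (hc : ∃ l ≤ D, c l ≠ 0 ∧ Even (e + l))
    (W : Submodule ℚ ℝ) [FiniteDimensional ℚ W] (h1 : ∀ l ≤ D, c l ∈ W) (hW : finrank ℚ W ≤ S) :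
    ∃ j, b < j ∧ j ≤ s ∧ Odd (e + j) ∧ xj D c j ∉ W := by
  classical
  obtain ⟨l0, hl0, hc0, hev⟩ := hc
  -- scaling
  let f : ℝ →ₗ[ℚ] ℝ := LinearMap.mulLeft ℚ (c l0)⁻¹
  have hf : ∀ y, f y = (c l0)⁻¹ * y := fun y => rfl
  obtain ⟨W', hW'⟩ : ∃ W' : Submodule ℚ ℝ, W' = W.map f := ⟨_, rfl⟩
  have hfin : FiniteDimensional ℚ W' := by rw [hW']; infer_instance
  have hdim : finrank ℚ W' ≤ S := by
    rw [hW']
    exact (Submodule.finrank_map_le f W).trans hW
  have hmem : ∀ y, y ∈ W → (c l0)⁻¹ * y ∈ W' := by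
    intro y hy
    rw [hW']
    exact ⟨y, hy, rfl⟩
  have h11 : (1 : ℝ) ∈ W' := by
    have := hmem _ (h1 l0 hl0)
    rwa [inv_mul_cancel₀ hc0] at this
  obtain ⟨x, hx⟩ : ∃ x : ℕ → ℝ, x = fun l => (c l0)⁻¹ * c l := ⟨_, rfl⟩
  obtain ⟨q0, hq0⟩ := hM (∑ l ∈ Finset.range (D + 1), |x l|)
  obtain ⟨q, hqq, hq1, hq⟩ := Pool.Agent.R355.approx_of_mem W' h11 hdim
    (Sum.elim (fun l : Fin (D + 1) => x (l : ℕ)) (fun j : Fin (s + 1) => xj D x (j : ℕ))) q0
  have hx0 : ∃ l ≤ D, 1 ≤ |x l| ∧ Even (e + l) := by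
    refine ⟨l0, hl0, ?_, hev⟩
    rw [hx]
    simp only
    rw [inv_mul_cancel₀ hc0, abs_one]
  have hxl : ∀ l ≤ D, |x l| ≤ ∑ l ∈ Finset.range (D + 1), |x l| := fun l hl =>
    Finset.single_le_sum (f := fun l => |x l|) (fun i _ => abs_nonneg _) (Finset.mem_range.2 (by omega))
  rcases hq0 x hxl hx0 q hqq with ⟨l, g1, g2⟩ | ⟨j, g1, g2, g3, g4⟩
  · exfalso
    have hm : x l ∈ W' := by
      rw [hx]
      exact hmem _ (h1 l g1)
    obtain ⟨p, hp⟩ := hq (Sum.inl ⟨l, by omega⟩) hm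
    exact absurd hp (not_lt.2 (g2 p))
  · refine ⟨j, g1, g2, g3, fun hmemj => ?_⟩
    have hm : xj D x j ∈ W' := by
      rw [hx, xj_smul]
      exact hmem _ hmemj
    obtain ⟨p, hp⟩ := hq (Sum.inr ⟨j, by omega⟩) hm
    exact absurd hp (not_lt.2 (g4 p))

/-- the dimension -/
theorem dim {b S s D e : ℕ} (hM : Ms b S s D e) (c : ℕ → ℝ) (hc : ∃ l ≤ D, c l ≠ 0 ∧ Even (e + l)) :
    S + 1 ≤ finrank ℚ (Submodule.span ℚ
      ({x : ℝ | (∃ l ≤ D, x = c l) ∨ ∃ j, b < j ∧ j ≤ s ∧ Odd (e + j) ∧ x = xj D c j} : Set ℝ)) := by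
  have hfin : ({x : ℝ | (∃ l ≤ D, x = c l) ∨ ∃ j, b < j ∧ j ≤ s ∧ Odd (e + j) ∧ x = xj D c j} :
      Set ℝ).Finite := by
    have h1 : ({x : ℝ | (∃ l ≤ D, x = c l) ∨ ∃ j, b < j ∧ j ≤ s ∧ Odd (e + j) ∧ x = xj D c j} : Set ℝ) ⊆
        (c '' (Set.Iic D)) ∪ (xj D c '' (Set.Iic s)) := by
      rintro x (⟨l, h, rfl⟩ | ⟨j, _, h2, _, rfl⟩)
      · exact Or.inl ⟨l, h, rfl⟩
      · exact Or.inr ⟨j, h2, rfl⟩
    exact (((Set.finite_Iic D).image _).union ((Set.finite_Iic s).image _)).subset h1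
  have : FiniteDimensional ℚ (Submodule.span ℚ
      ({x : ℝ | (∃ l ≤ D, x = c l) ∨ ∃ j, b < j ∧ j ≤ s ∧ Odd (e + j) ∧ x = xj D c j} : Set ℝ)) :=
    FiniteDimensional.span_of_finite ℚ hfin
  by_contra hcon
  obtain ⟨j, g1, g2, g3, g4⟩ := outside hM c hc (Submodule.span ℚ
      ({x : ℝ | (∃ l ≤ D, x = c l) ∨ ∃ j, b < j ∧ j ≤ s ∧ Odd (e + j) ∧ x = xj D c j} : Set ℝ))
    (fun l hl => Submodule.subset_span (Or.inl ⟨l, hl, rfl⟩)) (by omega)
  exact g4 (Submodule.subset_span (Or.inr ⟨j, g1, g2, g3, rfl⟩))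

/-- linear independence over number fields, modulo vector spaces which contain the coefficients -/
theorem indep {b S s D e d v m : ℕ} (hM : Ms b S s D e) (c : ℕ → ℝ)
    (hc : ∃ l ≤ D, c l ≠ 0 ∧ Even (e + l)) (hd : d * (v + m) ≤ S + d)
    (F : IntermediateField ℚ ℝ) [FiniteDimensional ℚ F] (hF : finrank ℚ F ≤ d)
    (V : Submodule F ℝ) [Module.Finite F V] (hV : finrank F V ≤ v) (hcV : ∀ l ≤ D, c l ∈ V) :
    ∃ J : Finset ℕ, J.card = m ∧ (∀ j ∈ J, b < j ∧ j ≤ s ∧ Odd (e + j)) ∧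
      LinearIndependent F (fun j : J => V.mkQ (xj D c (j : ℕ))) := by
  classical
  have key : ∀ a : ℕ, a ≤ m → ∃ J : Finset ℕ, J.card = a ∧ (∀ j ∈ J, b < j ∧ j ≤ s ∧ Odd (e + j)) ∧
      LinearIndepOn F (fun j => V.mkQ (xj D c j)) (J : Set ℕ) := by
    intro a
    induction a with
    | zero => intro _; exact ⟨∅, by simp, by simp, by simp⟩
    | succ a ih =>
      intro ha
      obtain ⟨J, hJc, hJE, hJi⟩ := ih (by omega)
      have hfin : Module.Finite F (Submodule.span F (xj D c '' (J : Set ℕ))) :=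
        FiniteDimensional.span_of_finite F (J.finite_toSet.image (xj D c))
      have h1 : finrank F (Submodule.span F (xj D c '' (J : Set ℕ))) ≤ a := by
        have := finrank_span_finset_le_card (R := F) (J.image (xj D c))
        rw [Finset.coe_image] at this
        exact this.trans (Finset.card_image_le.trans hJc.le)
      obtain ⟨U, hU⟩ : ∃ U : Submodule F ℝ, U = V ⊔ Submodule.span F (xj D c '' (J : Set ℕ)) := ⟨_, rfl⟩
      have hUfin : Module.Finite F U := by rw [hU]; infer_instance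
      have h2 : finrank F U ≤ v + a := by
        have := Submodule.finrank_add_le_finrank_add_finrank V (Submodule.span F (xj D c '' (J : Set ℕ)))
        rw [hU]
        omega
      have hST : IsScalarTower ℚ F (U.restrictScalars ℚ) :=
        ⟨fun a c x => Subtype.ext (smul_assoc a c (x : ℝ))⟩
      have hUF : Module.Finite F (U.restrictScalars ℚ) := hUfin
      have hUQ : FiniteDimensional ℚ (U.restrictScalars ℚ) := Module.Finite.trans F (U.restrictScalars ℚ)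
      have h3 : finrank ℚ (U.restrictScalars ℚ) ≤ d * (v + a) := by
        have e : finrank ℚ (U.restrictScalars ℚ) = finrank ℚ F * finrank F U :=
          (Module.finrank_mul_finrank ℚ F (U.restrictScalars ℚ)).symm
        rw [e]
        exact Nat.mul_le_mul hF h2
      have h4 : finrank ℚ (U.restrictScalars ℚ) ≤ S := by
        have h7 : d * (v + a) + d ≤ S + d := by
          calc d * (v + a) + d = d * (v + (a + 1)) := by ring
            _ ≤ d * (v + m) := Nat.mul_le_mul_left _ (by omega)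
            _ ≤ S + d := hd
        omega
      obtain ⟨j, g1, g2, g3, g4⟩ := outside hM c hc (U.restrictScalars ℚ)
        (fun l hl => by
          change c l ∈ U
          rw [hU]
          exact Submodule.mem_sup_left (hcV l hl)) h4
      have hjU : xj D c j ∉ U := g4
      have hjJ : j ∉ J := by
        intro hj
        apply hjU
        rw [hU]
        exact Submodule.mem_sup_right (Submodule.subset_span ⟨j, hj, rfl⟩)
      refine ⟨insert j J, ?_, ?_, ?_⟩
      · rw [Finset.card_insert_of_notMem hjJ, hJc]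
      · intro i hi
        rcases Finset.mem_insert.1 hi with rfl | hi
        · exact ⟨g1, g2, g3⟩
        · exact hJE i hi
      · rw [Finset.coe_insert]
        refine hJi.insert ?_
        intro hmem
        apply hjU
        have e1 : (fun j => V.mkQ (xj D c j)) '' (J : Set ℕ) = V.mkQ '' (xj D c '' (J : Set ℕ)) := by
          rw [Set.image_image]
        rw [e1, ← Submodule.map_span] at hmem
        have h3 : xj D c j ∈ Submodule.comap V.mkQ
          (Submodule.map V.mkQ (Submodule.span F (xj D c '' (J : Set ℕ)))) := hmem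
        rw [Submodule.comap_map_mkQ] at h3
        rwa [hU]
  obtain ⟨J, h1, h2, h3⟩ := key m le_rfl
  exact ⟨J, h1, h2, h3⟩

end Pool.Agent.Helper76.RJ
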