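import Pool.Agent.Helper76.RJ.Minor
import Pool.Graph.R_seed8.H340R2.LW

/-!
# Consequences: determinants of zeta values, powers of `π`
-/

set_option autoImplicit false

open Pool.Agent.H337R2 Module

namespace Pool.Agent.Helper76.RJ

open Pool.Agent.N797.PW

noncomputable section

/-- the window -/
def Win (e b s : ℕ) : Set ℕ := {j | b < j ∧ j ≤ s ∧ Odd (e + j)}

lemma Win_finite (e b s : ℕ) : (Win e b s).Finite :=
  (Set.finite_Iic s).subset fun _ h => h.2.1

/-- the span of the jets alone -/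
theorem dim' {b S s D e : ℕ} (hM : Ms b S s D e) (c : ℕ → ℝ) (hc : ∃ l ≤ D, c l ≠ 0 ∧ Even (e + l))
    (f : ℕ → ℝ) (a : ℕ → ℚ) (haf : ∀ j ∈ Win e b s, xj D c j = (a j : ℝ) * f j)
    (U : Submodule ℚ ℝ) [FiniteDimensional ℚ U] (hU : ∀ l ≤ D, c l ∈ U) :
    S + 1 ≤ finrank ℚ U + finrank ℚ (Submodule.span ℚ (f '' Win e b s)) := by
  have h1 := dim hM c hc
  have hfin : FiniteDimensional ℚ (Submodule.span ℚ (f '' Win e b s)) :=
    FiniteDimensional.span_of_finite ℚ ((Win_finite e b s).image f)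
  have h2 : Submodule.span ℚ
      ({x : ℝ | (∃ l ≤ D, x = c l) ∨ ∃ j, b < j ∧ j ≤ s ∧ Odd (e + j) ∧ x = xj D c j} : Set ℝ) ≤
      U ⊔ Submodule.span ℚ (f '' Win e b s) := by
    rw [Submodule.span_le]
    rintro x (⟨l, hl, rfl⟩ | ⟨j, g1, g2, g3, rfl⟩)
    · exact Submodule.mem_sup_left (hU l hl)
    · refine Submodule.mem_sup_right ?_
      have hj : j ∈ Win e b s := ⟨g1, g2, g3⟩
      rw [haf j hj]
      have h3 := Submodule.smul_mem (Submodule.span ℚ (f '' Win e b s)) (a j)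
        (Submodule.subset_span ⟨j, hj, rfl⟩)
      rwa [Rat.smul_def] at h3
  have h3 := Submodule.finrank_mono h2
  have h4 := Submodule.finrank_add_le_finrank_add_finrank U (Submodule.span ℚ (f '' Win e b s))
  omega

/-- the rows -/
def row {r : ℕ} (m : Fin r → ℕ) (j : ℕ) : Fin (r + 1) → ℕ := Fin.cons j m

/-- the determinant with the first row `j` -/
def dt {r : ℕ} (m : Fin r → ℕ) (μ : Fin (r + 1) → ℕ) (j : ℕ) : ℝ :=
  Matrix.det (Matrix.of fun i k : Fin (r + 1) => ((row m j i + μ k - 1).factorial : ℝ) * zr (row m j i + μ k))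

/-- the determinants are rational multiples of jets with nonzero coefficients -/
theorem dt_jet {D r : ℕ} (m : Fin r → ℕ) (μ : Fin (r + 1) → ℕ)
    (hm : Function.Injective m) (h2 : ∀ i, 2 ≤ m i) (hμ : Function.Injective μ) (hD : ∀ k, μ k ≤ D) :
    ∃ c : ℕ → ℝ, (∀ k, c (μ k) ≠ 0) ∧ (∀ l, (∀ k, μ k ≠ l) → c l = 0) ∧
      ∀ j, 1 ≤ j → ∃ a : ℚ, a ≠ 0 ∧ dt m μ j = (a : ℝ) * xj D c j := by
  classical
  obtain ⟨mi, hmi⟩ : ∃ mi : Fin (r + 1) → ℝ, mi = fun k => Matrix.det (Matrix.of fun i k' : Fin r =>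
      ((m i + μ (k.succAbove k') - 1).choose (μ (k.succAbove k')) : ℝ) * zr (m i + μ (k.succAbove k'))) :=
    ⟨_, rfl⟩
  have hmi0 : ∀ k, mi k ≠ 0 := by
    intro k
    rw [hmi]
    exact det_ne m (fun k' => μ (k.succAbove k')) hm (hμ.comp Fin.succAbove_right_injective) h2
  obtain ⟨c, hc⟩ : ∃ c : ℕ → ℝ, c = fun l => ∑ k : Fin (r + 1), if μ k = l then (-1) ^ (k : ℕ) * mi k else 0 :=
    ⟨_, rfl⟩
  have hcμ : ∀ k, c (μ k) = (-1) ^ (k : ℕ) * mi k := by
    intro k
    rw [hc]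
    simp only
    rw [Finset.sum_eq_single k]
    · rw [if_pos rfl]
    · intro k' _ hk'
      rw [if_neg (fun h => hk' (hμ h))]
    · intro h
      exact absurd (Finset.mem_univ _) h
  -- the jets
  have hx : ∀ j, xj D c j = ∑ k : Fin (r + 1), (-1) ^ (k : ℕ) *
      (((j + μ k - 1).choose (μ k) : ℝ) * zr (j + μ k)) * mi k := by
    intro j
    unfold xj
    rw [hc]
    simp only [Finset.sum_mul]
    rw [Finset.sum_comm]
    refine Finset.sum_congr rfl fun k _ => ?_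
    rw [Finset.sum_eq_single (μ k)]
    · rw [if_pos rfl]
      ring
    · intro l _ hl
      rw [if_neg (fun h => hl h.symm)]
      ring
    · intro h
      exact absurd (Finset.mem_range.2 (by have := hD k; omega)) h
  have hfac : ∀ i k : ℕ, 1 ≤ i → ((i + k - 1).factorial : ℝ) =
      ((i - 1).factorial : ℝ) * ((k.factorial : ℝ) * ((i + k - 1).choose k : ℝ)) := by
    intro i k hi
    have h3 := Nat.choose_mul_factorial_mul_factorial (show k ≤ i + k - 1 by omega)
    have h4 : i + k - 1 - k = i - 1 := by omega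
    rw [h4] at h3
    rw [← h3]
    push_cast
    ring
  refine ⟨c, fun k => ?_, fun l hl => ?_, fun j hj => ?_⟩
  · rw [hcμ]
    exact mul_ne_zero (pow_ne_zero _ (by norm_num)) (hmi0 k)
  · rw [hc]
    refine Finset.sum_eq_zero fun k _ => ?_
    rw [if_neg (hl k)]
  · -- the determinant
    have hrow : ∀ i, 1 ≤ row m j i := by
      intro i
      refine Fin.cases ?_ (fun i => ?_) i
      · exact hj
      · change 1 ≤ m i
        have := h2 i
        omega
    refine ⟨(∏ i, ((row m j i - 1).factorial : ℚ)) * ∏ k, ((μ k).factorial : ℚ), ?_, ?_⟩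
    · refine mul_ne_zero (Finset.prod_ne_zero_iff.2 fun i _ => ?_) (Finset.prod_ne_zero_iff.2 fun i _ => ?_)
      · exact_mod_cast Nat.factorial_ne_zero _
      · exact_mod_cast Nat.factorial_ne_zero _
    · have e1 : (Matrix.of fun i k : Fin (r + 1) => ((row m j i + μ k - 1).factorial : ℝ) *
            zr (row m j i + μ k)) =
          Matrix.of fun i k : Fin (r + 1) => ((row m j i - 1).factorial : ℝ) *
            (Matrix.of fun i k : Fin (r + 1) => ((μ k).factorial : ℝ) *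
              (Matrix.of fun i k : Fin (r + 1) => ((row m j i + μ k - 1).choose (μ k) : ℝ) *
                zr (row m j i + μ k)) i k) i k := by
        ext i k
        simp only [Matrix.of_apply]
        rw [hfac _ _ (hrow i)]
        ring
      unfold dt
      rw [e1, Matrix.det_mul_column, Matrix.det_mul_row, Matrix.det_succ_row_zero, hx]
      push_cast
      rw [mul_assoc]
      congr 2
      refine Finset.sum_congr rfl fun k _ => ?_
      rw [hmi]
      simp only [Matrix.of_apply]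
      rfl

/-- **determinants**: independence over number fields, modulo arbitrary finite dimensional spaces -/
theorem dets {b S s D e r d v t : ℕ} (hM : Ms b S s D e) (m : Fin r → ℕ) (μ : Fin (r + 1) → ℕ)
    (hm : Function.Injective m) (h2 : ∀ i, 2 ≤ m i) (hμ : Function.Injective μ) (hD : ∀ k, μ k ≤ D)
    (hev : ∃ k, Even (e + μ k)) (hd : d * (v + (r + 1) + t) ≤ S + d)
    (F : IntermediateField ℚ ℝ) [FiniteDimensional ℚ F] (hF : finrank ℚ F ≤ d)
    (V : Submodule F ℝ) [Module.Finite F V] (hV : finrank F V ≤ v) :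
    ∃ J : Finset ℕ, J.card = t ∧ (∀ j ∈ J, j ∈ Win e b s) ∧
      LinearIndependent F (fun j : J => V.mkQ (dt m μ (j : ℕ))) := by
  classical
  obtain ⟨c, hc1, hc2, hc3⟩ := dt_jet (D := D) m μ hm h2 hμ hD
  have hc0 : ∃ l ≤ D, c l ≠ 0 ∧ Even (e + l) := by
    obtain ⟨k, hk⟩ := hev
    exact ⟨μ k, hD k, hc1 k, hk⟩
  obtain ⟨U, hU⟩ : ∃ U : Submodule F ℝ, U = Submodule.span F (Set.range fun k : Fin (r + 1) => c (μ k)) :=
    ⟨_, rfl⟩
  have hUf : Module.Finite F U := by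
    rw [hU]
    exact FiniteDimensional.span_of_finite F (Set.finite_range _)
  have hU1 : finrank F U ≤ r + 1 := by
    have := finrank_range_le_card (R := F) (fun k : Fin (r + 1) => c (μ k))
    rw [Fintype.card_fin] at this
    rw [hU]
    exact this
  obtain ⟨V', hV'⟩ : ∃ V' : Submodule F ℝ, V' = V ⊔ U := ⟨_, rfl⟩
  have hV'f : Module.Finite F V' := by rw [hV']; infer_instance
  have hV'1 : finrank F V' ≤ v + (r + 1) := by
    have := Submodule.finrank_add_le_finrank_add_finrank V U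
    rw [hV']
    omega
  have hle : V ≤ V' := by rw [hV']; exact le_sup_left
  obtain ⟨J, g1, g2, g3⟩ := indep (v := v + (r + 1)) (m := t) hM c hc0 hd F hF V' hV'1 (by
    intro l _
    rw [hV']
    refine Submodule.mem_sup_right ?_
    rw [hU]
    by_cases hl : ∃ k, μ k = l
    · obtain ⟨k, rfl⟩ := hl
      exact Submodule.subset_span ⟨k, rfl⟩
    · rw [hc2 l (fun k h => hl ⟨k, h⟩)]
      exact Submodule.zero_mem _)
  refine ⟨J, g1, g2, ?_⟩
  -- modulo `V'`
  have h4 : LinearIndependent F (fun j : J => V'.mkQ (dt m μ (j : ℕ))) := by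
    choose! a ha using hc3
    have hj1 : ∀ j : J, 1 ≤ (j : ℕ) := fun j => by
      have := (g2 j j.2).1
      omega
    have h5 := g3.units_smul (fun j : J => Units.mk0 ((algebraMap ℚ F) (a (j : ℕ)))
      (by
        rw [Ne, map_eq_zero]
        exact (ha _ (hj1 j)).1))
    convert h5 using 1
    funext j
    rw [(ha _ (hj1 j)).2]
    change V'.mkQ _ = (algebraMap ℚ F (a (j : ℕ))) • V'.mkQ _
    rw [← map_smul]
    congr 1
  -- modulo `V`
  have h6 : (fun j : J => V'.mkQ (dt m μ (j : ℕ))) =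
      (Submodule.mapQ V V' LinearMap.id hle) ∘ (fun j : J => V.mkQ (dt m μ (j : ℕ))) := by
    funext j
    simp [Submodule.mapQ_apply]
  rw [h6] at h4
  exact h4.of_comp _

/-- polynomials: `m` of the numbers `∑ P_l(θ) C(j+l-1, l) ζ(j+l)` are independent modulo the polynomials in `θ` of
degree at most `N` -/
theorem polys {b S s D e N m : ℕ} (hM : Ms b S s D e) (hN : N + m ≤ S) (θ : ℝ) (hθ : Transcendental ℚ θ)
    (P : ℕ → Polynomial ℚ) (hP : ∀ l ≤ D, (P l).natDegree ≤ N) (hP0 : ∃ l ≤ D, P l ≠ 0 ∧ Even (e + l)) :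
    ∃ J : Finset ℕ, J.card = m ∧ (∀ j ∈ J, j ∈ Win e b s) ∧
      LinearIndependent ℚ (fun j : J => (Submodule.span ℚ (Set.range fun i : Fin (N + 1) => θ ^ (i : ℕ))).mkQ
        (xj D (fun l => Polynomial.aeval θ (P l)) (j : ℕ))) := by
  classical
  obtain ⟨V, hV⟩ : ∃ V : Submodule ℚ ℝ, V = Submodule.span ℚ (Set.range fun i : Fin (N + 1) => θ ^ (i : ℕ)) :=
    ⟨_, rfl⟩
  rw [← hV]
  have hfin : FiniteDimensional ℚ V := by
    rw [hV]
    exact FiniteDimensional.span_of_finite ℚ (Set.finite_range _)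
  have hr : finrank ℚ V ≤ N + 1 := by
    have := finrank_range_le_card (R := ℚ) (fun i : Fin (N + 1) => θ ^ (i : ℕ))
    rw [Fintype.card_fin] at this
    rw [hV]
    exact this
  have hcV : ∀ l ≤ D, Polynomial.aeval θ (P l) ∈ V := by
    intro l hl
    rw [Polynomial.aeval_eq_sum_range' (show (P l).natDegree < N + 1 by have := hP l hl; omega), hV]
    refine Submodule.sum_mem _ fun i hi => Submodule.smul_mem _ _ ?_
    exact Submodule.subset_span ⟨⟨i, Finset.mem_range.1 hi⟩, rfl⟩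
  have hc : ∃ l ≤ D, Polynomial.aeval θ (P l) ≠ 0 ∧ Even (e + l) := by
    obtain ⟨l, hl, h1, h2⟩ := hP0
    exact ⟨l, hl, fun h => h1 ((transcendental_iff.1 hθ) _ h), h2⟩
  obtain ⟨W, hW⟩ : ∃ W : Submodule ℚ ℝ, W = V := ⟨_, rfl⟩
  have key : ∀ a : ℕ, a ≤ m → ∃ J : Finset ℕ, J.card = a ∧ (∀ j ∈ J, j ∈ Win e b s) ∧
      LinearIndepOn ℚ (fun j => V.mkQ (xj D (fun l => Polynomial.aeval θ (P l)) j)) (J : Set ℕ) := by
    intro a
    induction a with
    | zero => intro _; exact ⟨∅, by simp, by simp, by simp⟩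
    | succ a ih =>
      intro ha
      obtain ⟨J, hJc, hJE, hJi⟩ := ih (by omega)
      have hfin' : FiniteDimensional ℚ (Submodule.span ℚ (xj D (fun l => Polynomial.aeval θ (P l)) '' (J : Set ℕ))) :=
        FiniteDimensional.span_of_finite ℚ (J.finite_toSet.image _)
      have h1 : finrank ℚ (Submodule.span ℚ (xj D (fun l => Polynomial.aeval θ (P l)) '' (J : Set ℕ))) ≤ a := by
        have := finrank_span_finset_le_card (R := ℚ) (J.image (xj D (fun l => Polynomial.aeval θ (P l))))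
        rw [Finset.coe_image] at this
        exact this.trans (Finset.card_image_le.trans hJc.le)
      have h2 := Submodule.finrank_add_le_finrank_add_finrank V
        (Submodule.span ℚ (xj D (fun l => Polynomial.aeval θ (P l)) '' (J : Set ℕ)))
      obtain ⟨j, g1, g2, g3, g4⟩ := outside hM _ hc
        (V ⊔ Submodule.span ℚ (xj D (fun l => Polynomial.aeval θ (P l)) '' (J : Set ℕ)))
        (fun l hl => Submodule.mem_sup_left (hcV l hl)) (by omega)
      have hjJ : j ∉ J := fun hj => g4 (Submodule.mem_sup_right (Submodule.subset_span ⟨j, hj, rfl⟩))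
      refine ⟨insert j J, ?_, ?_, ?_⟩
      · rw [Finset.card_insert_of_notMem hjJ, hJc]
      · intro i hi
        rcases Finset.mem_insert.1 hi with rfl | hi
        · exact ⟨g1, g2, g3⟩
        · exact hJE i hi
      · rw [Finset.coe_insert]
        refine hJi.insert ?_
        intro hmem
        apply g4
        have e1 : (fun j => V.mkQ (xj D (fun l => Polynomial.aeval θ (P l)) j)) '' (J : Set ℕ) =
            V.mkQ '' (xj D (fun l => Polynomial.aeval θ (P l)) '' (J : Set ℕ)) := by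
          rw [Set.image_image]
        rw [e1, ← Submodule.map_span] at hmem
        have h3 : xj D (fun l => Polynomial.aeval θ (P l)) j ∈ Submodule.comap V.mkQ
          (Submodule.map V.mkQ (Submodule.span ℚ (xj D (fun l => Polynomial.aeval θ (P l)) '' (J : Set ℕ)))) := hmem
        rwa [Submodule.comap_map_mkQ] at h3
  obtain ⟨J, h1, h2, h3⟩ := key m le_rfl
  exact ⟨J, h1, h2, h3⟩

lemma zr_eq (j : ℕ) : zr (j + 2) = ∑' n : ℕ, 1 / (n : ℝ) ^ (j + 2) := by
  have hs : Summable fun n : ℕ => 1 / (n : ℝ) ^ (j + 2) := Real.summable_one_div_nat_pow.2 (by omega)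
  rw [hs.tsum_eq_zero_add]
  unfold zr
  simp

/-- Euler's formula -/
lemma zr_even (k : ℕ) (hk : 1 ≤ k) : zr (2 * k) = ((-1 : ℝ) ^ (k + 1) * (2 : ℝ) ^ (2 * k - 1) *
    (Real.pi) ^ (2 * k) * ((bernoulli (2 * k) : ℚ) : ℝ) / ((2 * k).factorial : ℝ)) := by
  have h1 := (hasSum_zeta_nat (k := k) (by omega)).tsum_eq
  rw [← h1]
  have h2 := zr_eq (2 * k - 2)
  have e : 2 * k - 2 + 2 = 2 * k := by omega
  rw [e] at h2
  exact h2

/-- the rational number `ρ_k` -/
def rho (k : ℕ) : ℝ := (-1 : ℝ) ^ k * (2 : ℝ) ^ (2 * k + 1) * ((2 * k + 1 : ℕ) : ℝ) *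
  ((bernoulli (2 * k + 2) : ℚ) : ℝ) / ((2 * k + 2).factorial : ℝ)

/-- the rational number `ρ'_k` -/
def rho' (k : ℕ) : ℝ := (-1 : ℝ) ^ (k + 1) * (2 : ℝ) ^ (2 * k - 1) *
  ((bernoulli (2 * k) : ℚ) : ℝ) / (((2 * k : ℕ) : ℝ) * ((2 * k).factorial : ℝ))

lemma xj_one (c : ℕ → ℝ) (j : ℕ) : xj 1 c j = c 0 * zr j + c 1 * (j : ℝ) * zr (j + 1) := by
  unfold xj
  rw [Finset.sum_range_succ, Finset.sum_range_one]
  simp

lemma two_span (y : ℕ → ℝ) : ∃ U : Submodule ℚ ℝ, FiniteDimensional ℚ U ∧ finrank ℚ U ≤ 2 ∧ ∀ l ≤ 1, y l ∈ U := by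
  refine ⟨Submodule.span ℚ (Set.range fun i : Fin 2 => y i), FiniteDimensional.span_of_finite ℚ (Set.finite_range _),
    ?_, ?_⟩
  · have := finrank_range_le_card (R := ℚ) (fun i : Fin 2 => y i)
    rwa [Fintype.card_fin] at this
  · intro l hl
    exact Submodule.subset_span ⟨⟨l, by omega⟩, rfl⟩

/-- the numbers `ζ(2k+1) + τ ρ_k π^(2k+1)` -/
theorem pis {b S s : ℕ} (hM : Ms b S s 1 0) (τ : ℝ) :
    S ≤ finrank ℚ (Submodule.span ℚ ({x : ℝ | ∃ k : ℕ, b < 2 * k + 1 ∧ 2 * k + 1 ≤ s ∧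
      x = zr (2 * k + 1) + τ * (rho k * Real.pi ^ (2 * k + 1))})) + 1 := by
  obtain ⟨c, hc⟩ : ∃ c : ℕ → ℝ, c = fun l => if l = 0 then 1 else τ / Real.pi := ⟨_, rfl⟩
  obtain ⟨U, hU1, hU2, hU3⟩ := two_span c
  have hc0 : c 0 = 1 := by rw [hc]; simp
  have hc1 : c 1 = τ / Real.pi := by rw [hc]; simp
  have h1 := dim' hM c ⟨0, by omega, by rw [hc0]; norm_num, by decide⟩ (xj 1 c) (fun _ => 1)
    (fun j _ => by rw [Rat.cast_one, one_mul]) U hU3
  have h2 : xj 1 c '' Win 0 b s = {x : ℝ | ∃ k : ℕ, b < 2 * k + 1 ∧ 2 * k + 1 ≤ s ∧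
      x = zr (2 * k + 1) + τ * (rho k * Real.pi ^ (2 * k + 1))} := by
    have h3 : ∀ k : ℕ, xj 1 c (2 * k + 1) = zr (2 * k + 1) + τ * (rho k * Real.pi ^ (2 * k + 1)) := by
      intro k
      rw [xj_one, hc0, hc1, show 2 * k + 1 + 1 = 2 * (k + 1) by ring, zr_even (k + 1) (by omega)]
      unfold rho
      have h5 := Real.pi_ne_zero
      have h6 : ((2 * (k + 1)).factorial : ℝ) ≠ 0 := by exact_mod_cast Nat.factorial_ne_zero _
      rw [show 2 * (k + 1) - 1 = 2 * k + 1 by omega, show 2 * k + 2 = 2 * (k + 1) by ring]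
      field_simp
      ring
    ext x
    constructor
    · rintro ⟨j, ⟨g1, g2, g3⟩, rfl⟩
      rw [zero_add] at g3
      obtain ⟨k, hk⟩ := g3
      subst hk
      exact ⟨k, g1, g2, h3 k⟩
    · rintro ⟨k, g1, g2, rfl⟩
      exact ⟨2 * k + 1, ⟨g1, g2, by rw [zero_add]; exact ⟨k, rfl⟩⟩, h3 k⟩
  rw [h2] at h1
  omega

/-- the numbers `ζ(2k+1) + τ ρ'_k π^(2k+1)` -/
theorem pis' {b S s : ℕ} (hM : Ms b S s 1 1) (τ : ℝ) :
    S ≤ finrank ℚ (Submodule.span ℚ ({x : ℝ | ∃ k : ℕ, b < 2 * k ∧ 2 * k ≤ s ∧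
      x = zr (2 * k + 1) + τ * (rho' k * Real.pi ^ (2 * k + 1))})) + 1 := by
  obtain ⟨c, hc⟩ : ∃ c : ℕ → ℝ, c = fun l => if l = 0 then τ * Real.pi else 1 := ⟨_, rfl⟩
  obtain ⟨U, hU1, hU2, hU3⟩ := two_span c
  have hc0 : c 0 = τ * Real.pi := by rw [hc]; simp
  have hc1 : c 1 = 1 := by rw [hc]; simp
  obtain ⟨f, hf⟩ : ∃ f : ℕ → ℝ, f = fun j => zr (j + 1) + τ * (rho' (j / 2) * Real.pi ^ (j + 1)) := ⟨_, rfl⟩
  have h3 : ∀ k : ℕ, 1 ≤ k → xj 1 c (2 * k) = (((2 * k : ℕ) : ℚ) : ℝ) * f (2 * k) := by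
    intro k hk
    rw [xj_one, hc0, hc1, zr_even k hk, hf]
    simp only
    rw [show 2 * k / 2 = k by omega]
    unfold rho'
    have h6 : ((2 * k).factorial : ℝ) ≠ 0 := by exact_mod_cast Nat.factorial_ne_zero _
    have h7 : ((2 * k : ℕ) : ℝ) ≠ 0 := by
      exact_mod_cast (show 2 * k ≠ 0 by omega)
    rw [Rat.cast_natCast]
    field_simp
    ring
  have h1 := dim' hM c ⟨1, by omega, by rw [hc1]; norm_num, by decide⟩ f (fun j => (j : ℚ))
    (fun j hj => by
      obtain ⟨g1, g2, g3⟩ := hj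
      obtain ⟨k, hk⟩ := g3
      have hk' : j = 2 * k := by omega
      subst hk'
      exact h3 k (by omega)) U hU3
  have h2 : f '' Win 1 b s = {x : ℝ | ∃ k : ℕ, b < 2 * k ∧ 2 * k ≤ s ∧
      x = zr (2 * k + 1) + τ * (rho' k * Real.pi ^ (2 * k + 1))} := by
    have h4 : ∀ k : ℕ, f (2 * k) = zr (2 * k + 1) + τ * (rho' k * Real.pi ^ (2 * k + 1)) := by
      intro k
      rw [hf]
      simp only
      rw [show 2 * k / 2 = k by omega]
    ext x
    constructor
    · rintro ⟨j, ⟨g1, g2, g3⟩, rfl⟩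
      obtain ⟨k, hk⟩ := g3
      have hk' : j = 2 * k := by omega
      subst hk'
      exact ⟨k, g1, g2, h4 k⟩
    · rintro ⟨k, g1, g2, rfl⟩
      exact ⟨2 * k, ⟨g1, g2, ⟨k, by ring⟩⟩, h4 k⟩
  rw [h2] at h1
  omega

end

end Pool.Agent.Helper76.RJ
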