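import Pool.Agent.Helper76.RJ.Est

/-!
# The core of the proof for jets with real coefficients, uniform in the coefficients
-/

set_option autoImplicit false

open Polynomial Pool.Agent.H337R2 Pool.Agent.W165.OZ Pool.Agent.Y926.LZ Pool.Agent.Y926.TW Filter Topology

namespace Pool.Agent.Helper76.RJ

open Pool.Agent.N797.PW

noncomputable section

/-- **The core**, uniform in the coefficients `x l`, `|x l| ≤ C0`, `|x l₀| ≥ 1` for some `l₀` of the parity of `b`. -/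
theorem core {b S D : ℕ} (hb2 : 2 ≤ b) (hS : 1 ≤ S) (C0 : ℝ) (hC0 : 0 ≤ C0) :
    ∃ q0 : ℕ, ∀ x : ℕ → ℝ, (∀ l ≤ D, |x l| ≤ C0) → (∃ l ≤ D, 1 ≤ |x l| ∧ Even (b + l)) → ∀ q ≥ q0,
      (∃ l ≤ D, ∀ p : ℤ, (q : ℝ) ^ (-(1 / (S : ℝ))) ≤ |(q : ℝ) * x l - p|) ∨
      ∃ j, Odd (b + j) ∧ b < j ∧ j ≤ 2 * pH (b + D) S + pB (b + D) S ∧
        ∀ p : ℤ, (q : ℝ) ^ (-(1 / (S : ℝ))) ≤ |(q : ℝ) * xj D x j - p| := by
  classical
  obtain ⟨b1, hb1⟩ : ∃ b1, b1 = b + D := ⟨_, rfl⟩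
  obtain ⟨L, hL⟩ : ∃ L, L = pL S := ⟨_, rfl⟩
  obtain ⟨M, hM⟩ : ∃ M, M = pM S := ⟨_, rfl⟩
  obtain ⟨B, hB⟩ : ∃ B, B = pB b1 S := ⟨_, rfl⟩
  obtain ⟨h, hh⟩ : ∃ h, h = pH b1 S := ⟨_, rfl⟩
  obtain ⟨w, hw⟩ : ∃ w, w = pw b1 S := ⟨_, rfl⟩
  obtain ⟨xx, hx⟩ : ∃ xx, xx = px b1 S := ⟨_, rfl⟩
  obtain ⟨γ, hγ⟩ : ∃ γ, γ = pg b1 S := ⟨_, rfl⟩
  obtain ⟨Δ, hΔ⟩ : ∃ Δ, Δ = pD b1 S := ⟨_, rfl⟩
  obtain ⟨g', hg'⟩ : ∃ g', g' = pG b1 S := ⟨_, rfl⟩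
  rw [← hb1]
  have hBM : B = b1 + 2 * M := by rw [hB, hM]; rfl
  have hM1 : 1 ≤ M := by
    rw [hM]
    exact one_le_pM hS
  have P1 : 2 * h ≤ 2 ^ (2 * L + 9) * w := by rw [hh, hL, hw]; exact par1 b1 S
  have P2 := par2 b1 S hS
  have P3 : 2 * h + 2 * B ≤ 2 ^ (4 * L + 18) * γ := by rw [hh, hB, hL, hγ]; exact par3 b1 S hS
  have P4 : h + 1 ≤ γ * (M + 1) := by rw [hh, hγ, hM]; exact par4 b1 S hS
  have P5 : (S + 1) * g' + 6 * γ ≤ 6 * w := by rw [hg', hγ, hw]; exact par5' b1 S hS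
  have P6 : γ ≤ w := by rw [hγ, hw]; exact pg_le_pw b1 S hS
  have P7 : γ + 2 ≤ h := by rw [hγ, hh]; exact pg_le_pH b1 S hS
  have hΔe : Δ = 2 * γ + 4 * (4 * L + 18) * (2 * γ + 2) + 1 := by rw [hΔ, hγ, hL]; rfl
  have hg'e : g' = Δ + xx + 3 * γ + 5 := by rw [hg', hΔ, hx, hγ]; rfl
  rw [← hw, ← hx, ← hL, ← hB, ← hh] at P2
  rw [← hh, ← hB]
  have hh1 : 1 ≤ h := by omega
  have hg'1 : 1 ≤ g' := by omega
  have hY1 : 1 ≤ S * g' := Nat.mul_pos (by omega) (by omega)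
  have hSG : S_SG := t_sg t_pig t_ji t_jb
  obtain ⟨K1, hK1⟩ : ∃ K1 : ℝ, K1 = (D + 1) * 2 ^ B * C0 := ⟨_, rfl⟩
  obtain ⟨K2, hK2⟩ : ∃ K2 : ℝ, K2 = 2 * h * 2 ^ (2 * h + B) + (D + 1) * 2 ^ B * (2 ^ (B + 10) +
    4 * h * 2 ^ (2 * h + B)) := ⟨_, rfl⟩
  have hK10 : 0 ≤ K1 := by rw [hK1]; positivity
  have hK20 : 0 ≤ K2 := by rw [hK2]; positivity
  -- the largeness conditions
  have hevG := t_gcd (2 * h + 2 * B) (2 * γ + 2) γ (4 * L + 18) P3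
  have hevN := t_num t_gcd h 16 B w xx (2 * L + 9) P1 P2
  have hev := hevG.and
    ((eventually_small (q := 1 / 2) (by norm_num) (by norm_num)
      (4 * (K1 * 2 ^ (B + 1 + 10)) : ℝ) 3).and
    (eventually_small (q := 1 / 2) (by norm_num) (by norm_num)
      (4 * (K2 * 2 ^ (2 * g')) : ℝ) 3))
  obtain ⟨N1, hN1⟩ := eventually_atTop.1 hev
  obtain ⟨N2, hN2⟩ := eventually_atTop.1 hevN
  obtain ⟨N0, hN0⟩ : ∃ N0, N0 = N1 + N2 + M + 2 * B * (M * (M + 1)) + 2 * h * M ^ 2 + 2 := ⟨_, rfl⟩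
  refine ⟨(2 ^ (S * g')) ^ (2 * N0) + 2, fun x hxl hx0 q hq => ?_⟩
  by_contra hcon
  push Not at hcon
  obtain ⟨hconA, hconJ⟩ := hcon
  obtain ⟨ν, hνN, hqn, hqn1⟩ := choose_n hY1 hq
  have hνN1 : N1 ≤ ν := by omega
  have hνN2 : N2 ≤ ν := by omega
  obtain ⟨n, hn⟩ : ∃ n, n = 2 * ν + 1 := ⟨_, rfl⟩
  obtain ⟨hnG, hn3, hn1'⟩ := hN1 n (by omega)
  have hSgN := hN2 ν hνN2
  have hν1 : 1 ≤ ν := by omega
  have hn1 : 1 ≤ n := by omega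
  have hnR : 2 * (ν : ℝ) + 1 = (n : ℝ) := by rw [hn]; push_cast; ring
  have hq2 : 2 ≤ q := by omega
  have hq0 : 0 < q := by omega
  have hq0' : (0 : ℝ) < q := by exact_mod_cast hq0
  have hq1' : (1 : ℝ) ≤ q := by exact_mod_cast hq0
  have hq0q : (q : ℚ) ≠ 0 := by exact_mod_cast hq0.ne'
  -- the approximations
  obtain ⟨s, hs⟩ : ∃ s : ℝ, s = (q : ℝ) ^ (-(1 / (S : ℝ))) := ⟨_, rfl⟩
  have hs0 : 0 < s := by rw [hs]; exact Real.rpow_pos_of_pos hq0' _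
  have hs1 : s ≤ 1 := by
    rw [hs]
    apply Real.rpow_le_one_of_one_le_of_nonpos hq1'
    apply neg_nonpos.2
    positivity
  rw [← hs] at hconA hconJ
  have hsT : s * 2 ^ (g' * (2 * ν - 1)) ≤ 1 := by
    have e1 : (2 ^ (g' * (2 * ν - 1))) ^ S ≤ q := by
      refine le_trans (le_of_eq ?_) hqn1.le
      rw [← pow_mul]
      congr 1
      ring
    have e2 := root_le hq0 hS e1
    rw [← hs] at e2
    push_cast at e2
    exact e2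
  have hp : ∀ j, ∃ p : ℤ, (Odd (b + j) → b < j → j ≤ 2 * h + B → |(q : ℝ) * xj D x j - p| < s) := by
    intro j
    by_cases hc : Odd (b + j) ∧ b < j ∧ j ≤ 2 * h + B
    · obtain ⟨p, hp⟩ := hconJ j hc.1 hc.2.1 hc.2.2
      exact ⟨p, fun _ _ _ => hp⟩
    · exact ⟨0, fun h1 h2 h3 => absurd ⟨h1, h2, h3⟩ hc⟩
  choose p hp using hp
  have hr : ∀ l, ∃ p : ℤ, (l ≤ D → |(q : ℝ) * x l - p| < s) := by
    intro l
    by_cases hc : l ≤ D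
    · obtain ⟨p, hp⟩ := hconA l hc
      exact ⟨p, fun _ => hp⟩
    · exact ⟨0, fun h1 => absurd h1 hc⟩
  choose r hr using hr
  obtain ⟨z, hz⟩ : ∃ z : ℕ → ℚ, ∀ j, z j = (p j : ℚ) / q := ⟨_, fun _ => rfl⟩
  obtain ⟨a, ha⟩ : ∃ a : ℕ → ℚ, ∀ l, a l = (r l : ℚ) / q := ⟨_, fun _ => rfl⟩
  have happ : ∀ (y : ℝ) (P : ℤ), |(q : ℝ) * y - P| < s → |y - (((P : ℚ) / q : ℚ) : ℝ)| ≤ s / q := by
    intro y P e1
    rw [le_div_iff₀ hq0']
    have e2 : |y - (((P : ℚ) / q : ℚ) : ℝ)| * q = |(q : ℝ) * y - P| := by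
      rw [← abs_of_pos hq0', ← abs_mul, abs_of_pos hq0']
      congr 1
      push_cast
      field_simp
    rw [e2]
    exact e1.le
  have hyz : ∀ j, Odd (b + j) → b < j → j ≤ 2 * h + B → |xj D x j - (z j : ℝ)| ≤ s / q := by
    intro j hj1 hj2 hj3
    rw [hz]
    exact happ _ _ (hp j hj1 hj2 hj3)
  have hya : ∀ l ≤ D, |x l - (a l : ℝ)| ≤ s / q := by
    intro l hl
    rw [ha]
    exact happ _ _ (hr l hl)
  have hyi : ∀ j, ∃ a : ℤ, (q : ℚ) * z j = a := by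
    intro j
    refine ⟨p j, ?_⟩
    rw [hz]
    field_simp
  have hai : ∀ l ≤ D, ∃ m : ℤ, (q : ℚ) * a l = m := by
    intro l _
    refine ⟨r l, ?_⟩
    rw [ha]
    field_simp
  have ha0 : ∃ l, l ≤ D ∧ a l ≠ 0 ∧ Even (b + l) := by
    obtain ⟨l, hl1, hl2, hl3⟩ := hx0
    refine ⟨l, hl1, ?_, hl3⟩
    intro h0
    have e1 : r l = 0 := by
      rw [ha, div_eq_zero_iff] at h0
      rcases h0 with h0 | h0
      · exact_mod_cast h0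
      · exact absurd h0 hq0q
    have e2 := hr l hl1
    rw [e1, Int.cast_zero, sub_zero, abs_mul, abs_of_pos hq0'] at e2
    have e3 : (2 : ℝ) ≤ q := by exact_mod_cast hq2
    nlinarith
  -- Siegel's lemma
  obtain ⟨H, hH⟩ : ∃ H, H = 2 ^ (xx * n) := ⟨_, rfl⟩
  obtain ⟨c, hAS, hNZ, hcH, hTA, hTB, hTC⟩ := hSG h ν 16 B w H hh1 hν1 (by rw [hH, hn]; exact hSgN)
  rw [← hn] at hAS hNZ hTA hTB hTC
  -- powers of two
  obtain ⟨Dw, hD⟩ : ∃ Dw, Dw = DW n (2 * h + 2 * B) (2 * γ + 2) := ⟨_, rfl⟩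
  rw [← hD, ← hΔe] at hnG
  have hD0 : 0 < Dw := by
    rw [hD]
    exact Nat.gcd_pos_of_pos_right _ (pow_pos (Nat.factorial_pos n) _)
  have hD0' : (0 : ℝ) < Dw := by exact_mod_cast hD0
  have hqP : (q : ℝ) ≤ 2 ^ (S * g' * n) := by
    rw [hn]
    exact_mod_cast hqn
  -- first estimate
  have hT1 : ∀ l ≤ γ * n, (q : ℝ) * Dw * (K1 * (2 ^ (B + 2) * (((16 : ℕ) : ℝ)) ^ 2 * (n : ℝ) ^ 3 *
      (H : ℝ) * 8 ^ (l + n) * (2 / (((16 : ℕ) : ℝ))) ^ (2 * (w * n) + 2 - 2 * l))) ≤ 1 / 4 := by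
    intro l hl
    have e1 := sml_bd (n := n) (β := B) (B := B + 1) (w := w) (γ := γ) (x := xx) (l := l) (by omega) hl P6
    rw [← hH] at e1
    obtain ⟨R, hR⟩ : ∃ R : ℝ, R = 2 ^ (B + 2) * (((16 : ℕ) : ℝ)) ^ 2 * (n : ℝ) ^ 3 *
      (H : ℝ) * 8 ^ (l + n) * (2 / (((16 : ℕ) : ℝ))) ^ (2 * (w * n) + 2 - 2 * l) := ⟨_, rfl⟩
    rw [← hR] at e1 ⊢
    have hR0 : 0 ≤ R := by rw [hR]; positivity
    have e2 : (2 : ℝ) ^ (S * g' * n) * 2 ^ (Δ * n) * 2 ^ ((xx + 3 * γ + 3 + 6 * γ) * n) * 2 ^ n ≤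
        2 ^ (6 * w * n) := by
      rw [← pow_add, ← pow_add, ← pow_add]
      apply pow_le_pow_right₀ (by norm_num)
      have f1 : S * g' * n + Δ * n + (xx + 3 * γ + 3 + 6 * γ) * n + n =
        (S * g' + (Δ + xx + 3 * γ + 4) + 6 * γ) * n := by ring
      rw [f1]
      apply Nat.mul_le_mul_right
      have f2 : (S + 1) * g' = S * g' + g' := by ring
      omega
    have e3 := half_pow hn3
    have e4 : (q : ℝ) * Dw * (K1 * R) * (2 ^ n * 2 ^ (6 * w * n)) ≤ 1 / 4 * (2 ^ n * 2 ^ (6 * w * n)) := by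
      calc (q : ℝ) * Dw * (K1 * R) * (2 ^ n * 2 ^ (6 * w * n))
          = q * Dw * 2 ^ n * K1 * (R * 2 ^ (6 * w * n)) := by ring
        _ ≤ 2 ^ (S * g' * n) * 2 ^ (Δ * n) * 2 ^ n * K1 *
            (2 ^ (B + 1 + 10) * (n : ℝ) ^ 3 * 2 ^ ((xx + 3 * γ + 3 + 6 * γ) * n)) := by gcongr
        _ = (K1 * 2 ^ (B + 1 + 10) * (n : ℝ) ^ 3) *
            (2 ^ (S * g' * n) * 2 ^ (Δ * n) * 2 ^ ((xx + 3 * γ + 3 + 6 * γ) * n) * 2 ^ n) := by ring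
        _ ≤ (1 / 4 * 2 ^ n) * 2 ^ (6 * w * n) := by
            apply mul_le_mul _ e2 (by positivity) (by positivity)
            linarith
        _ = _ := by ring
    exact le_of_mul_le_mul_right e4 (by positivity)
  -- second estimate
  have hT2 : ∀ l ≤ γ * n, (q : ℝ) * Dw *
      ((K2 * (n : ℝ) ^ 3 * ((H : ℝ) * 8 ^ (l + n))) * (s / q)) ≤ 1 / 4 := by
    intro l hl
    have e5 : (8 : ℝ) ^ (l + n) ≤ 2 ^ (3 * (γ * n) + 3 * n) := by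
      rw [show (8 : ℝ) = 2 ^ 3 by norm_num, ← pow_mul]
      apply pow_le_pow_right₀ (by norm_num)
      omega
    have e7 : (q : ℝ) * Dw * ((K2 * (n : ℝ) ^ 3 * ((H : ℝ) * 8 ^ (l + n))) * (s / q)) =
        Dw * ((K2 * (n : ℝ) ^ 3 * ((H : ℝ) * 8 ^ (l + n))) * s) := by
      field_simp
    rw [e7]
    have e8 : (2 : ℝ) ^ (Δ * n) * 2 ^ (xx * n) * 2 ^ (3 * (γ * n) + 3 * n) * 2 ^ n * s ≤ 2 ^ (2 * g') := by
      have f1 : (2 : ℝ) ^ (Δ * n) * 2 ^ (xx * n) * 2 ^ (3 * (γ * n) + 3 * n) * 2 ^ n ≤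
          2 ^ (g' * (2 * ν - 1)) * 2 ^ (2 * g') := by
        rw [← pow_add, ← pow_add, ← pow_add, ← pow_add]
        apply pow_le_pow_right₀ (by norm_num)
        obtain ⟨k, hk⟩ : ∃ k, k = 2 * ν - 1 := ⟨_, rfl⟩
        rw [← hk]
        have f2 : n = k + 2 := by omega
        have f3 : g' * k + 2 * g' = g' * n := by rw [f2]; ring
        rw [f3]
        calc Δ * n + xx * n + (3 * (γ * n) + 3 * n) + n = (Δ + xx + 3 * γ + 4) * n := by ring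
          _ ≤ g' * n := Nat.mul_le_mul_right _ (by omega)
      calc (2 : ℝ) ^ (Δ * n) * 2 ^ (xx * n) * 2 ^ (3 * (γ * n) + 3 * n) * 2 ^ n * s
          ≤ 2 ^ (g' * (2 * ν - 1)) * 2 ^ (2 * g') * s := by gcongr
        _ = (s * 2 ^ (g' * (2 * ν - 1))) * 2 ^ (2 * g') := by ring
        _ ≤ 1 * 2 ^ (2 * g') := by gcongr
        _ = _ := one_mul _
    have e9 := half_pow hn1'
    have hHR : (H : ℝ) = 2 ^ (xx * n) := by rw [hH]; push_cast; rfl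
    have e10 : (Dw * ((K2 * (n : ℝ) ^ 3 * ((H : ℝ) * 8 ^ (l + n))) * s)) * 2 ^ n ≤
        1 / 4 * 2 ^ n := by
      calc (Dw * ((K2 * (n : ℝ) ^ 3 * ((H : ℝ) * 8 ^ (l + n))) * s)) * 2 ^ n
          ≤ (2 ^ (Δ * n) * ((K2 * (n : ℝ) ^ 3 * (2 ^ (xx * n) *
            2 ^ (3 * (γ * n) + 3 * n))) * s)) * 2 ^ n := by rw [hHR]; gcongr
        _ = (K2 * (n : ℝ) ^ 3) *
            (2 ^ (Δ * n) * 2 ^ (xx * n) * 2 ^ (3 * (γ * n) + 3 * n) * 2 ^ n * s) := by ring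
        _ ≤ (K2 * (n : ℝ) ^ 3) * 2 ^ (2 * g') := by gcongr
        _ ≤ 1 / 4 * 2 ^ n := by linarith
    exact le_of_mul_le_mul_right e10 (by positivity)
  -- the forms vanish
  have hzero : ∀ j < M, ∀ l ≤ γ * n, LA a z D h n c (gq n l) (b + 2 * j) = 0 := by
    intro j hj l hl
    obtain ⟨β, hβ⟩ : ∃ β, β = b + 2 * j := ⟨_, rfl⟩
    rw [← hβ]
    have hβB : β + D < B := by omega
    have hpar : ∀ j', Odd (β + j') → Odd (b + j') := by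
      intro j' h1
      rw [hβ, show b + 2 * j + j' = b + j' + 2 * j by ring] at h1
      exact (Nat.odd_add.1 h1).2 (even_two_mul j)
    obtain ⟨Mz, hMz⟩ := LA_int a z (D := D) (h := h) (ν := ν) (γ := γ) (l := l) (q := q) (c := c) hβB
      (by rw [← hn]; exact hl) (by rw [← hn]; exact hAS) (by rw [← hn]; exact hTC) (fun j' _ _ _ => hyi j')
      hai
    rw [← hn, ← hD] at hMz
    have hle := LAR_sml x (C0 := C0) (D := D) (h := h) (ν := ν) (β := β) (B := B) (w := w) (l := l) (H := H)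
      (c := c) hxl (by omega) hβB
      (by rw [← hn]; exact hl.trans (Nat.mul_le_mul_right _ P6))
      (by rw [← hn]; exact hAS) hcH (by rw [← hn]; exact hTA) (by rw [← hn]; exact hTB)
    rw [hnR, ← hn, ← hK1] at hle
    have hdf := LA_dif x a z (D := D) (h := h) (ν := ν) (β := β) (B := B) (w := w) (l := l) (H := H)
      (c := c) (δ := s / q) (by positivity) (by omega) hβB
      (by rw [← hn]; exact hl.trans (Nat.mul_le_mul_right _ P6))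
      (by rw [← hn]; exact hAS) hcH (by rw [← hn]; exact hTA) (by rw [← hn]; exact hTB)
      (fun j' h1 h2 h3 => hyz j' (hpar j' h1) (by omega) (by omega)) hya
    rw [hnR, ← hn, ← hK2] at hdf
    obtain ⟨y1, hy1⟩ : ∃ y1, y1 = LA a z D h n c (gq n l) β := ⟨_, rfl⟩
    obtain ⟨y2, hy2⟩ : ∃ y2, y2 = LAR x D h n c (gq n l) β := ⟨_, rfl⟩
    rw [← hy1] at hMz hdf ⊢
    rw [← hy2] at hle hdf
    have a1 : |(y1 : ℝ)| ≤ (K1 * (2 ^ (B + 2) * (((16 : ℕ) : ℝ)) ^ 2 * (n : ℝ) ^ 3 *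
        (H : ℝ) * 8 ^ (l + n) * (2 / (((16 : ℕ) : ℝ))) ^ (2 * (w * n) + 2 - 2 * l))) +
        ((K2 * (n : ℝ) ^ 3 * ((H : ℝ) * 8 ^ (l + n))) * (s / q)) := by
      have a2 := abs_sub_abs_le_abs_sub (y1 : ℝ) y2
      rw [abs_sub_comm] at a2
      linarith
    have a3 : |(Mz : ℝ)| < 1 := by
      have a4 : (Mz : ℝ) = (q : ℝ) * Dw * (y1 : ℝ) := by
        have := congrArg (fun t : ℚ => (t : ℝ)) hMz
        push_cast at this
        exact this.symm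
      rw [a4, abs_mul, abs_of_pos (by positivity : (0 : ℝ) < (q : ℝ) * Dw)]
      calc (q : ℝ) * Dw * |(y1 : ℝ)| ≤ (q : ℝ) * Dw * ((K1 * (2 ^ (B + 2) * (((16 : ℕ) : ℝ)) ^ 2 * (n : ℝ) ^ 3 *
            (H : ℝ) * 8 ^ (l + n) * (2 / (((16 : ℕ) : ℝ))) ^ (2 * (w * n) + 2 - 2 * l))) +
            ((K2 * (n : ℝ) ^ 3 * ((H : ℝ) * 8 ^ (l + n))) * (s / q))) := by gcongr
        _ ≤ 1 / 4 + 1 / 4 := by
            rw [mul_add]
            exact add_le_add (hT1 l hl) (hT2 l hl)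
        _ < 1 := by norm_num
    have a5 : Mz = 0 := by
      have : |Mz| < 1 := by exact_mod_cast a3
      exact Int.abs_lt_one_iff.1 this
    rw [a5, Int.cast_zero] at hMz
    rcases mul_eq_zero.1 hMz with a6 | a6
    · exfalso
      rcases mul_eq_zero.1 a6 with a7 | a7
      · exact hq0q a7
      · exact hD0.ne' (by exact_mod_cast a7)
    · exact a6
  -- the zero estimate
  have hGM : M < n := by omega
  refine ze a z D h n b M B (γ * n) c hn1 hh1 hGM hAS hNZ ?_ (by omega) ha0 hzero ?_ ?_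
  · intro l hl
    exact hTA l (hl.trans (Nat.mul_le_mul_right _ P6))
  · have e1 : (γ + 2) * n ≤ h * n := Nat.mul_le_mul_right _ P7
    have e2 : (γ + 2) * n = γ * n + 2 * n := by ring
    have e3 : n * (2 * h) = 2 * (h * n) := by ring
    rw [e3]
    omega
  · have e1 : (h + 1) * n ≤ (γ * (M + 1)) * n := Nat.mul_le_mul_right _ P4
    have e2 : (h + 1) * n = h * n + n := by ring
    have e3 : (2 * (γ * n) + 3) * (M + 1) = 2 * ((γ * (M + 1)) * n) + 3 * (M + 1) := by ring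
    have e4 : 2 * h * n = 2 * (h * n) := by ring
    rw [e3, e4]
    omega

end

end Pool.Agent.Helper76.RJ
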