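import Pool.Graph.R_pool_sql_team_seeded_63374d34.N797.PW.J_POLE

/-!
# The signed functions `η` are not differences

`etS n B e = (-1)^e (X - 1)^(B-e-1) (X + n - 1)^B + (X - 1)^B (X + n - 1)^(B-e-1)`. A combination of the
`etS n B e / ((X - 1)^B (X + n - 1)^B)` which is a difference has zero coefficients at all even `e`.
-/

set_option autoImplicit false

open Polynomial Pool.Agent.H337R2 Pool.Agent.W165.OZ Pool.Agent.Y926.LZ Pool.Agent.Y926.TW Filter
open scoped Topology

namespace Pool.Agent.Helper76.RJ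

open Pool.Agent.N797.PW Pool.Agent.N797.PW.Pole391

noncomputable section

/-- the signed numerators -/
def etS (n B e : ℕ) : ℚ[X] := C ((-1 : ℚ) ^ e) * ((X - C 1) ^ (B - e - 1) * (X + C ((n : ℚ) - 1)) ^ B) +
  (X - C 1) ^ B * (X + C ((n : ℚ) - 1)) ^ (B - e - 1)

/-- a polynomial in `1/t` without constant term which has a limit at `0` vanishes -/
lemma unique_gen (M : ℕ) (κ : ℕ → ℚ)
    (h : Rg fun t => ∑ l ∈ Finset.range M, κ l * (1 / t ^ (l + 1))) :
    ∀ l < M, κ l = 0 := by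
  induction M with
  | zero => intro l hl; omega
  | succ M ih =>
    have hM : κ M = 0 := by
      obtain ⟨L, hL⟩ := h
      have h1 : Tendsto (fun t : ℚ => t ^ (M + 1) *
          ∑ l ∈ Finset.range (M + 1), κ l * (1 / t ^ (l + 1))) (𝓝[≠] 0) (𝓝 (0 * L)) := by
        refine Tendsto.mul ?_ hL
        have : Tendsto (fun t : ℚ => t ^ (M + 1)) (𝓝 0) (𝓝 ((0 : ℚ) ^ (M + 1))) :=
          (continuous_pow _).tendsto 0
        rw [zero_pow (by omega)] at this
        exact this.mono_left nhdsWithin_le_nhds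
      have h2 : Tendsto (fun t : ℚ => ∑ l ∈ Finset.range (M + 1), κ l * t ^ (M - l))
          (𝓝[≠] 0) (𝓝 (∑ l ∈ Finset.range (M + 1), κ l * (0 : ℚ) ^ (M - l))) := by
        have : Continuous fun t : ℚ => ∑ l ∈ Finset.range (M + 1), κ l * t ^ (M - l) := by
          fun_prop
        exact (this.tendsto 0).mono_left nhdsWithin_le_nhds
      have h3 : (fun t : ℚ => t ^ (M + 1) *
          ∑ l ∈ Finset.range (M + 1), κ l * (1 / t ^ (l + 1))) =ᶠ[𝓝[≠] 0]
          fun t : ℚ => ∑ l ∈ Finset.range (M + 1), κ l * t ^ (M - l) := by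
        filter_upwards [self_mem_nhdsWithin] with t ht
        have ht' : t ≠ 0 := ht
        rw [Finset.mul_sum]
        refine Finset.sum_congr rfl fun l hl => ?_
        have hl' : l ≤ M := by
          have := Finset.mem_range.1 hl
          omega
        have e : M + 1 = (M - l) + (l + 1) := by omega
        rw [e, pow_add]
        field_simp
      have h4 := tendsto_nhds_unique (h1.congr' h3) h2
      rw [zero_mul, Finset.sum_range_succ, Finset.sum_eq_zero, zero_add] at h4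
      · simpa using h4.symm
      · intro l hl
        have := Finset.mem_range.1 hl
        rw [zero_pow (by omega), mul_zero]
    intro l hl
    rcases Nat.lt_succ_iff_lt_or_eq.1 hl with h' | h'
    · refine ih ?_ l h'
      refine h.congr (Eventually.of_forall fun t => ?_)
      rw [Finset.sum_range_succ, hM, zero_mul, add_zero]
    · rw [h', hM]

lemma etS_eval (n B e : ℕ) (h : e + 1 ≤ B) (t : ℚ) (h1 : t - 1 ≠ 0) (h2 : t + (n - 1) ≠ 0) :
    (etS n B e).eval t = (t - 1) ^ B * (t + (n - 1)) ^ B *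
      ((-1) ^ e * (1 / (t - 1) ^ (e + 1)) + 1 / (t + (n - 1)) ^ (e + 1)) := by
  obtain ⟨d, rfl⟩ := Nat.exists_eq_add_of_le h
  have e' : e + 1 + d - e - 1 = d := by omega
  simp only [etS, eval_add, eval_mul, eval_pow, eval_sub, eval_X, eval_C, e']
  rw [pow_add, pow_add]
  field_simp
  ring

/-- the identity for the values -/
lemma val_gen {n B : ℕ} {κ : ℕ → ℚ} {u v : ℚ[X]}
    (h : PjW n B * (u * sh 1 v - sh 1 u * v) +
      (∑ l ∈ Finset.range B, C (κ l) * etS n B l) * v * sh 1 v = 0)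
    {t : ℚ} (h1 : t - 1 ≠ 0) (h2 : t + (n - 1) ≠ 0) (h3 : v.eval t ≠ 0)
    (h4 : v.eval (t - 1) ≠ 0) :
    u.eval t / v.eval t - u.eval (t - 1) / v.eval (t - 1) =
      - ∑ l ∈ Finset.range B, κ l * ((-1) ^ l * (1 / (t - 1) ^ (l + 1)) +
        1 / (t + (n - 1)) ^ (l + 1)) := by
  have h5 := congrArg (Polynomial.eval t) h
  have h6 : (∑ l ∈ Finset.range B, C (κ l) * etS n B l).eval t =
      (t - 1) ^ B * (t + (n - 1)) ^ B *
      ∑ l ∈ Finset.range B, κ l * ((-1) ^ l * (1 / (t - 1) ^ (l + 1)) +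
        1 / (t + (n - 1)) ^ (l + 1)) := by
    rw [eval_finsetSum, Finset.mul_sum]
    refine Finset.sum_congr rfl fun l hl => ?_
    have := Finset.mem_range.1 hl
    rw [eval_mul, eval_C, etS_eval n _ _ (by omega) t h1 h2]
    ring
  have h7 : ∀ p : ℚ[X], (sh 1 p).eval t = p.eval (t - 1) := fun p => by simp [sh]
  rw [eval_add, eval_mul, eval_mul, eval_mul, h6, eval_sub, eval_mul, eval_mul, h7, h7,
    eval_zero] at h5
  simp only [PjW, eval_mul, eval_pow, eval_sub, eval_add, eval_X, eval_C] at h5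
  set S := ∑ l ∈ Finset.range B, κ l * ((-1) ^ l * (1 / (t - 1) ^ (l + 1)) +
        1 / (t + (n - 1)) ^ (l + 1)) with hS
  have h8 : (t - 1) ^ B ≠ 0 := pow_ne_zero _ h1
  have h9 : (t + ((n : ℚ) - 1)) ^ B ≠ 0 := pow_ne_zero _ h2
  have h10 : (u.eval t * v.eval (t - 1) - u.eval (t - 1) * v.eval t) +
      S * (v.eval t * v.eval (t - 1)) = 0 := by
    have : (t - 1) ^ B * (t + ((n : ℚ) - 1)) ^ B *
      ((u.eval t * v.eval (t - 1) - u.eval (t - 1) * v.eval t) +
      S * (v.eval t * v.eval (t - 1))) = 0 := by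
      rw [← h5]
      ring
    rcases mul_eq_zero.1 this with h' | h'
    · exact absurd h' (mul_ne_zero h8 h9)
    · exact h'
  rw [div_sub_div _ _ h3 h4, div_eq_iff (mul_ne_zero h3 h4)]
  linear_combination h10

/-- the telescoping sum -/
lemma sum_gen {n B : ℕ} {κ : ℕ → ℚ} {u v : ℚ[X]}
    (h : PjW n B * (u * sh 1 v - sh 1 u * v) +
      (∑ l ∈ Finset.range B, C (κ l) * etS n B l) * v * sh 1 v = 0)
    (N : ℕ) {t : ℚ} (h1 : ∀ i : ℕ, i < 2 * N → t + (i - N) ≠ 0)
    (h2 : ∀ i : ℕ, i < 2 * N → t + (i - N + n) ≠ 0)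
    (h3 : ∀ i : ℕ, i ≤ 2 * N → v.eval (t + (i - N)) ≠ 0) :
    u.eval (t + N) / v.eval (t + N) - u.eval (t + -N) / v.eval (t + -N) =
      - ∑ i ∈ Finset.range (2 * N), ∑ l ∈ Finset.range B, κ l *
        ((-1) ^ l * (1 / (t + (i - N)) ^ (l + 1)) + 1 / (t + (i - N + n)) ^ (l + 1)) := by
  have key := Finset.sum_range_sub (fun i : ℕ => u.eval (t + (i - N)) / v.eval (t + (i - N)))
    (2 * N)
  have e1 : t + (((2 * N : ℕ) : ℚ) - N) = t + N := by
    push_cast
    ring
  have e2 : t + (((0 : ℕ) : ℚ) - N) = t + -N := by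
    push_cast
    ring
  simp only [e1, e2] at key
  rw [← key, ← Finset.sum_neg_distrib]
  refine Finset.sum_congr rfl fun i hi => ?_
  have hi' := Finset.mem_range.1 hi
  have e3 : t + (((i + 1 : ℕ) : ℚ) - N) - 1 = t + (i - N) := by
    push_cast
    ring
  have e4 : t + (((i + 1 : ℕ) : ℚ) - N) + (n - 1) = t + (i - N + n) := by
    push_cast
    ring
  have := val_gen h (t := t + (((i + 1 : ℕ) : ℚ) - N)) (by rw [e3]; exact h1 i hi')
    (by rw [e4]; exact h2 i hi') (h3 (i + 1) (by omega)) (by rw [e3]; exact h3 i (by omega))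
  rw [e3, e4] at this
  exact this

/-- **POLE**: the coefficients at the even orders vanish. -/
theorem pole_gen {n B : ℕ} (κ : ℕ → ℚ) (u v : ℚ[X]) (hn : 1 ≤ n) (hv : v ≠ 0)
    (h : PjW n B * (u * sh 1 v - sh 1 u * v) +
      (∑ l ∈ Finset.range B, C (κ l) * etS n B l) * v * sh 1 v = 0) :
    ∀ l < B, Even l → κ l = 0 := by
  obtain ⟨N, hN, hN1, hN2⟩ := exists_shift v hv n
  suffices H : ∀ l < B, (κ l * (((-1) ^ l + 1) / 2)) = 0 by
    intro l hl he
    have := H l hl
    rw [he.neg_one_pow] at this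
    norm_num at this
    exact this
  refine unique_gen B _ ?_
  have r1 : Rg fun t => u.eval (t + N) / v.eval (t + N) := rg_quot u v N hN1
  have r2 : Rg fun t => u.eval (t + -N) / v.eval (t + -N) := rg_quot u v (-N) hN2
  have r3 : ∀ l ∈ Finset.range B, Rg fun t => κ l *
      (((-1) ^ l * (∑ i ∈ Finset.range (2 * N), 1 / (t + (i + -(N : ℚ))) ^ (l + 1) -
        1 / t ^ (l + 1))) +
      (∑ i ∈ Finset.range (2 * N), 1 / (t + (i + (-(N : ℚ) + n))) ^ (l + 1) -
        1 / t ^ (l + 1))) := by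
    intro l _
    refine Rg.cmul _ (Rg.add (Rg.cmul _ ?_) ?_)
    · exact rg_sum_shift N (-N) N (by omega) (by ring) _
    · refine rg_sum_shift N (-N + n) (N - n) (by omega) ?_ _
      rw [Nat.cast_sub hN]
      ring
  have r4 := Rg.cmul (-(1 / 2) : ℚ) (Rg.add (Rg.sub r1 r2) (Rg.sum _ _ r3))
  refine r4.congr ?_
  have c1 : ∀ i ∈ Finset.range (2 * N + 1), ∀ᶠ t in 𝓝[≠] (0 : ℚ), t + ((i : ℚ) - N) ≠ 0 := by
    intro i _
    have := pole_ne (X + C ((i : ℚ) - N)) (X_add_C_ne_zero _) 0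
    filter_upwards [this] with t ht
    simpa using ht
  have c2 : ∀ i ∈ Finset.range (2 * N + 1), ∀ᶠ t in 𝓝[≠] (0 : ℚ), t + ((i : ℚ) - N + n) ≠ 0 := by
    intro i _
    have := pole_ne (X + C ((i : ℚ) - N + n)) (X_add_C_ne_zero _) 0
    filter_upwards [this] with t ht
    simpa using ht
  have c3 : ∀ i ∈ Finset.range (2 * N + 1), ∀ᶠ t in 𝓝[≠] (0 : ℚ),
      v.eval (t + ((i : ℚ) - N)) ≠ 0 := by
    intro i _
    have hc : v.comp (X + C ((i : ℚ) - N)) ≠ 0 := by
      intro h0
      apply hv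
      have := congrArg (fun p : ℚ[X] => p.comp (X - C ((i : ℚ) - N))) h0
      simpa [comp_assoc] using this
    have := pole_ne _ hc 0
    filter_upwards [this] with t ht
    simpa using ht
  rw [← Filter.eventually_all_finset] at c1 c2 c3
  filter_upwards [c1, c2, c3] with t h1 h2 h3
  have key := sum_gen h N (t := t) (fun i hi => h1 i (Finset.mem_range.2 (by omega)))
    (fun i hi => h2 i (Finset.mem_range.2 (by omega)))
    (fun i hi => h3 i (Finset.mem_range.2 (by omega)))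
  rw [key, Finset.sum_comm, ← Finset.sum_neg_distrib, ← Finset.sum_add_distrib, Finset.mul_sum]
  refine Finset.sum_congr rfl fun l _ => ?_
  have e1 : ∀ i : ℕ, t + ((i : ℚ) - N) = t + (i + -(N : ℚ)) := fun i => by ring
  have e2 : ∀ i : ℕ, t + ((i : ℚ) - N + n) = t + (i + (-(N : ℚ) + n)) := fun i => by ring
  simp only [e1, e2]
  rw [← Finset.mul_sum, Finset.sum_add_distrib, ← Finset.mul_sum]
  ring

end

end Pool.Agent.Helper76.RJ
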