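import Pool.Graph.R_pool_sql_team_seeded_63374d34.N797.PW.Main
import Pool.Agent.Helper76.RJ.Pole

/-!
# Jets with arbitrary real coefficients: definitions, germs, the recursion

`LA a z` is the linear form `∑_l a_l C(β+l, l) ∑_t (1/(β+l)!) (F g)^(β+l)(t)`, where the combinations
`∑_l a_l C(j+l-1, l) ζ(j+l)` are replaced by `z j`.
-/

set_option autoImplicit false

open Polynomial Pool.Agent.H337R2 Pool.Agent.W165.OZ Pool.Agent.Y926.LZ Pool.Agent.Y926.TW Filter

namespace Pool.Agent.Helper76.RJ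

open Pool.Agent.N797.PW

noncomputable section

/-- the combination `∑_{l ≤ D} c_l C(j+l-1, l) ζ(j+l)` -/
def xj (D : ℕ) (c : ℕ → ℝ) (j : ℕ) : ℝ :=
  ∑ l ∈ Finset.range (D + 1), c l * ((j + l - 1).choose l : ℝ) * zr (j + l)

/-- the finite part of the form of order `β` -/
def TF (h n : ℕ) (c : ℕ → ℕ → ℤ) (g : ℚ[X]) (β : ℕ) : ℚ := ∑ v ∈ Finset.range n, Tm h n c g β (-(v : ℤ))

/-- the linear form -/
def LA (a z : ℕ → ℚ) (D h n : ℕ) (c : ℕ → ℕ → ℤ) (g : ℚ[X]) (β : ℕ) : ℚ :=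
  ∑ i ∈ Finset.Icc 1 (2 * h), Cb β i * rh h n c g i * z (i + β) -
    ∑ l ∈ Finset.range (D + 1), a l * ((β + l).choose l : ℚ) * TF h n c g (β + l)

/-- the real linear form -/
def LAR (a : ℕ → ℝ) (D h n : ℕ) (c : ℕ → ℕ → ℤ) (g : ℚ[X]) (β : ℕ) : ℝ :=
  ∑ l ∈ Finset.range (D + 1), a l * ((β + l).choose l : ℝ) * LR h n c g (β + l)

lemma choose_id (β l m : ℕ) : (β + l).choose l * (m + (β + l)).choose m =
    (m + β).choose m * (m + β + l).choose l := by
  have h1 := Nat.choose_mul (n := m + β + l) (k := β + l) (s := l) (by omega)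
  have e1 : m + β + l - l = m + β := by omega
  have e2 : β + l - l = β := by omega
  rw [e1, e2] at h1
  have h2 : (m + β + l).choose (β + l) = (m + (β + l)).choose m := by
    rw [← Nat.choose_symm (by omega : m ≤ m + (β + l)), show m + (β + l) - m = β + l by omega, add_assoc]
  have h3 : (m + β).choose β = (m + β).choose m := by
    rw [← Nat.choose_symm (by omega : m ≤ m + β), show m + β - m = β by omega]
  rw [h2, h3] at h1
  rw [mul_comm, h1, mul_comm]

lemma Cb_id (β l i : ℕ) (hi : 1 ≤ i) : ((β + l).choose l : ℚ) * Cb (β + l) i =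
    Cb β i * ((i + β + l - 1).choose l : ℚ) := by
  obtain ⟨m, rfl⟩ : ∃ m, i = m + 1 := ⟨i - 1, by omega⟩
  unfold Cb
  have e : m + 1 + β + l - 1 = m + β + l := by omega
  rw [Nat.add_sub_cancel, e]
  exact_mod_cast choose_id β l m

/-- the real form in terms of the combinations `xj` -/
lemma LAR_eq (a : ℕ → ℝ) (D h n : ℕ) (c : ℕ → ℕ → ℤ) (g : ℚ[X]) (β : ℕ) :
    LAR a D h n c g β = ∑ i ∈ Finset.Icc 1 (2 * h), ((Cb β i * rh h n c g i : ℚ) : ℝ) * xj D a (i + β) -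
      ∑ l ∈ Finset.range (D + 1), a l * ((β + l).choose l : ℝ) * ((TF h n c g (β + l) : ℚ) : ℝ) := by
  unfold LAR LR TF xj
  simp only [mul_sub, Finset.sum_sub_distrib]
  congr 1
  · simp only [Finset.mul_sum]
    rw [Finset.sum_comm]
    refine Finset.sum_congr rfl fun i hi => Finset.sum_congr rfl fun l _ => ?_
    have h1 := congrArg (fun t : ℚ => (t : ℝ)) (Cb_id β l i (Finset.mem_Icc.1 hi).1)
    push_cast at h1
    push_cast
    rw [show i + (β + l) = i + β + l by ring]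
    linear_combination (a l * (rh h n c g i : ℝ) * zr (i + β + l)) * h1
  · refine Finset.sum_congr rfl fun l _ => ?_
    push_cast
    ring

/-! ### Germs -/

/-- the germ -/
def EA (a z : ℕ → ℚ) (D h β k : ℕ) : PowerSeries ℚ :=
  ∑ i ∈ Finset.Icc 1 (2 * h), PowerSeries.C (Cb β i * z (i + β)) * PowerSeries.X ^ (i - 1) -
    ∑ l ∈ Finset.range (D + 1), PowerSeries.C (a l * ((β + l).choose l : ℚ)) * SPL.Hg h (β + l) k

/-- the symmetrised germ -/
def EB (a z : ℕ → ℚ) (D h n β k : ℕ) : PowerSeries ℚ :=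
  EA a z D h β k + PowerSeries.rescale (-1 : ℚ) (EA a z D h β (n - 1 - k))

/-- the form as a functional of germs -/
lemma LA_eq (a z : ℕ → ℚ) (D h n : ℕ) (c : ℕ → ℕ → ℤ) (g : ℚ[X]) (β : ℕ) :
    LA a z D h n c g β = LF h n c (fun k => TS (-(k : ℚ)) g * EA a z D h β k) := by
  have h1 : (fun k : ℕ => TS (-(k : ℚ)) g * EA a z D h β k) = fun k : ℕ =>
      (∑ i ∈ Finset.Icc 1 (2 * h), PowerSeries.C (Cb β i * z (i + β)) *
        (PowerSeries.X ^ (i - 1) * TS (-(k : ℚ)) g)) -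
      ∑ l ∈ Finset.range (D + 1), PowerSeries.C (a l * ((β + l).choose l : ℚ)) *
        (TS (-(k : ℚ)) g * SPL.Hg h (β + l) k) := by
    funext k
    unfold EA
    rw [mul_sub, Finset.mul_sum, Finset.mul_sum]
    congr 1
    · refine Finset.sum_congr rfl fun i _ => ?_
      ring
    · refine Finset.sum_congr rfl fun l _ => ?_
      ring
  rw [h1, SPL.LF_sub, SPL.LF_sum, SPL.LF_sum]
  unfold LA
  congr 1
  · refine Finset.sum_congr rfl fun i _ => ?_
    rw [SPL.LF_C_mul]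
    unfold rh
    ring
  · refine Finset.sum_congr rfl fun l _ => ?_
    rw [SPL.LF_C_mul]
    unfold TF
    rw [SPL.sum_Tm]

/-! ### The recursion -/

lemma Hg_sub (h b k : ℕ) : SPL.Hg h b (k + 1) - SPL.Hg h b k = REC.Sg h b ((k : ℚ) + 1) := by
  unfold SPL.Hg REC.Sg
  rw [← Finset.sum_sub_distrib]
  refine Finset.sum_congr rfl fun i _ => ?_
  rw [← sub_mul, ← map_sub]
  congr 2
  unfold hs
  rw [Finset.sum_range_succ]
  ring

/-- the expansion of `1/(a - X)^(b+1)` -/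
lemma Sg_gen (h b : ℕ) {a : ℚ} (ha : a ≠ 0) :
    (PowerSeries.X : PowerSeries ℚ) ^ (2 * h) ∣ REC.Sg h b a - PowerSeries.C ((-1 : ℚ) ^ (b + 1)) * iv (-a) ^ (b + 1) := by
  rw [PowerSeries.X_pow_dvd_iff]
  intro m hm
  rw [map_sub, REC.coeff_Sg h b a hm, PowerSeries.coeff_C_mul, coeff_iv_pow (neg_ne_zero.2 ha)]
  have h2 : Cb b (m + 1) = (Nat.choose (b + m) b : ℚ) := by
    unfold Cb
    rw [Nat.add_sub_cancel, add_comm b m, Nat.choose_symm_add]
  rw [h2, show m + 1 + b = b + 1 + m by ring, neg_pow a (b + 1 + m), pow_add (-1 : ℚ) (b + 1) m]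
  have h3 : ((-1 : ℚ) ^ (b + 1)) * (-1) ^ (b + 1) = 1 := by rw [← mul_pow]; norm_num
  have h4 : ((-1 : ℚ) ^ m) * (-1) ^ m = 1 := by rw [← mul_pow]; norm_num
  have h5 : ((-1 : ℚ) ^ (b + 1)) ≠ 0 := pow_ne_zero _ (by norm_num)
  have h6 : ((-1 : ℚ) ^ m) ≠ 0 := pow_ne_zero _ (by norm_num)
  have h7 : a ^ (b + 1 + m) ≠ 0 := pow_ne_zero _ ha
  field_simp
  ring

/-- the leading part of the difference of germs -/
lemma EA_rec (a z : ℕ → ℚ) (D h β k : ℕ) :
    (PowerSeries.X : PowerSeries ℚ) ^ (2 * h) ∣ EA a z D h β (k + 1) - EA a z D h β k -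
      ∑ l ∈ Finset.range (D + 1), PowerSeries.C (a l * ((β + l).choose l : ℚ) * (-1) ^ (β + l)) *
        iv (-((k : ℚ) + 1)) ^ (β + l + 1) := by
  have h1 : EA a z D h β (k + 1) - EA a z D h β k -
      ∑ l ∈ Finset.range (D + 1), PowerSeries.C (a l * ((β + l).choose l : ℚ) * (-1) ^ (β + l)) *
        iv (-((k : ℚ) + 1)) ^ (β + l + 1) =
      -∑ l ∈ Finset.range (D + 1), PowerSeries.C (a l * ((β + l).choose l : ℚ)) *
        (REC.Sg h (β + l) ((k : ℚ) + 1) - PowerSeries.C ((-1 : ℚ) ^ (β + l + 1)) *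
          iv (-((k : ℚ) + 1)) ^ (β + l + 1)) := by
    have e1 : EA a z D h β (k + 1) - EA a z D h β k =
        -∑ l ∈ Finset.range (D + 1), PowerSeries.C (a l * ((β + l).choose l : ℚ)) *
          REC.Sg h (β + l) ((k : ℚ) + 1) := by
      unfold EA
      rw [sub_sub_sub_cancel_left, ← Finset.sum_sub_distrib, ← Finset.sum_neg_distrib]
      refine Finset.sum_congr rfl fun l _ => ?_
      rw [← mul_sub, ← neg_sub, Hg_sub, mul_neg]
    rw [e1, ← neg_add', ← Finset.sum_add_distrib]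
    congr 1
    refine Finset.sum_congr rfl fun l _ => ?_
    rw [mul_sub, ← mul_assoc, ← map_mul, sub_eq_add_neg, ← neg_mul, ← map_neg]
    congr 3
    ring
  rw [h1, dvd_neg]
  refine Finset.dvd_sum fun l _ => ?_
  exact Dvd.dvd.mul_left (Sg_gen h (β + l) (by positivity)) _

lemma rescale_iv_gen (e : ℕ) (u : ℚ) :
    PowerSeries.rescale (-1 : ℚ) (iv (-u) ^ e) = PowerSeries.C ((-1 : ℚ) ^ e) * iv u ^ e := by
  have h1 : PowerSeries.rescale (-1 : ℚ) (iv (-u)) = -iv u := by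
    have h2 := iv_neg (-u)
    rw [neg_neg] at h2
    rw [h2, neg_neg]
  rw [map_pow, h1, neg_pow, map_pow, map_neg, map_one]

lemma rescale_C (r : ℚ) : PowerSeries.rescale (-1 : ℚ) (PowerSeries.C r) = PowerSeries.C r := by
  ext m
  rw [PowerSeries.coeff_rescale, PowerSeries.coeff_C]
  split_ifs with h
  · rw [h]; simp
  · simp

lemma EB_rec (a z : ℕ → ℚ) (D h n β k : ℕ) (hk : k + 1 < n) :
    (PowerSeries.X : PowerSeries ℚ) ^ (2 * h) ∣ EB a z D h n β (k + 1) - EB a z D h n β k -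
      ∑ l ∈ Finset.range (D + 1), PowerSeries.C (a l * ((β + l).choose l : ℚ)) *
        (PowerSeries.C ((-1 : ℚ) ^ (β + l)) * iv (-((k : ℚ) + 1)) ^ (β + l + 1) +
          iv ((n : ℚ) - 1 - k) ^ (β + l + 1)) := by
  have e1 : n - 1 - (k + 1) = n - 2 - k := by omega
  have e2 : n - 1 - k = n - 2 - k + 1 := by omega
  have e3 : (((n - 2 - k : ℕ) : ℚ) + 1) = (n : ℚ) - 1 - k := by
    rw [Nat.sub_sub, Nat.cast_sub (by omega)]
    push_cast
    ring
  have h2 := EA_rec a z D h β (n - 2 - k)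
  rw [e3] at h2
  have h3 := REC.rescale_dvd h2
  have h1 : EB a z D h n β (k + 1) - EB a z D h n β k -
      ∑ l ∈ Finset.range (D + 1), PowerSeries.C (a l * ((β + l).choose l : ℚ)) *
        (PowerSeries.C ((-1 : ℚ) ^ (β + l)) * iv (-((k : ℚ) + 1)) ^ (β + l + 1) +
          iv ((n : ℚ) - 1 - k) ^ (β + l + 1)) =
      (EA a z D h β (k + 1) - EA a z D h β k -
      ∑ l ∈ Finset.range (D + 1), PowerSeries.C (a l * ((β + l).choose l : ℚ) * (-1) ^ (β + l)) *
        iv (-((k : ℚ) + 1)) ^ (β + l + 1)) -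
      PowerSeries.rescale (-1 : ℚ) (EA a z D h β (n - 2 - k + 1) - EA a z D h β (n - 2 - k) -
      ∑ l ∈ Finset.range (D + 1), PowerSeries.C (a l * ((β + l).choose l : ℚ) * (-1) ^ (β + l)) *
        iv (-((n : ℚ) - 1 - k)) ^ (β + l + 1)) := by
    unfold EB
    rw [e1, e2, map_sub, map_sub, map_sum]
    have e4 : ∀ l ∈ Finset.range (D + 1), PowerSeries.rescale (-1 : ℚ)
        (PowerSeries.C (a l * ((β + l).choose l : ℚ) * (-1) ^ (β + l)) *
          iv (-((n : ℚ) - 1 - k)) ^ (β + l + 1)) =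
        -(PowerSeries.C (a l * ((β + l).choose l : ℚ)) * iv ((n : ℚ) - 1 - k) ^ (β + l + 1)) := by
      intro l _
      rw [map_mul, rescale_C, rescale_iv_gen, ← mul_assoc, ← map_mul, ← neg_mul, ← map_neg]
      congr 2
      have h3 : ((-1 : ℚ) ^ (β + l)) * (-1) ^ (β + l + 1) = -1 := by
        rw [pow_succ, ← mul_assoc, ← mul_pow]
        norm_num
      linear_combination (a l * ((β + l).choose l : ℚ)) * h3
    rw [Finset.sum_congr rfl e4, Finset.sum_neg_distrib]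
    simp only [mul_add, Finset.sum_add_distrib, map_mul, mul_assoc]
    ring
  rw [h1]
  exact dvd_sub (EA_rec a z D h β k) h3

/-- the numerator of the difference -/
def etA (a : ℕ → ℚ) (D n B β : ℕ) : ℚ[X] :=
  ∑ l ∈ Finset.range (D + 1), C (a l * ((β + l).choose l : ℚ)) * etS n B (β + l)

/-- **RCW**: the recursion of the germs. -/
theorem EB_rcw (a z : ℕ → ℚ) (D h n B β k : ℕ) (hB : β + D + 1 ≤ B) (hk : k + 1 < n) :
    (PowerSeries.X : PowerSeries ℚ) ^ (2 * h) ∣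
      TS (-(k : ℚ)) (PjW n B) * (EB a z D h n β (k + 1) - EB a z D h n β k) -
        TS (-(k : ℚ)) (etA a D n B β) := by
  have h1 := EB_rec a z D h n β k hk
  have hk0 : -((k : ℚ) + 1) ≠ 0 := by
    have : (0 : ℚ) < (k : ℚ) + 1 := by positivity
    exact neg_ne_zero.2 this.ne'
  have hk1 : ((n : ℚ) - 1 - k) ≠ 0 := by
    have : ((k : ℚ) + 1) < n := by exact_mod_cast hk
    intro h0
    linarith
  have t1 : TS (-(k : ℚ)) (X - C 1) = PowerSeries.X + PowerSeries.C (-((k : ℚ) + 1)) := by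
    rw [map_sub, TS_X, TS_C, add_sub_assoc, ← map_sub]
    congr 2
    ring
  have t2 : TS (-(k : ℚ)) (X + C ((n : ℚ) - 1)) = PowerSeries.X + PowerSeries.C ((n : ℚ) - 1 - k) := by
    rw [map_add, TS_X, TS_C, add_assoc, ← map_add]
    congr 2
    ring
  have h2 : TS (-(k : ℚ)) (PjW n B) *
      (∑ l ∈ Finset.range (D + 1), PowerSeries.C (a l * ((β + l).choose l : ℚ)) *
        (PowerSeries.C ((-1 : ℚ) ^ (β + l)) * iv (-((k : ℚ) + 1)) ^ (β + l + 1) +
          iv ((n : ℚ) - 1 - k) ^ (β + l + 1))) = TS (-(k : ℚ)) (etA a D n B β) := by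
    unfold etA
    rw [map_sum, Finset.mul_sum]
    refine Finset.sum_congr rfl fun l hl => ?_
    have hl' := Finset.mem_range.1 hl
    obtain ⟨d, hd⟩ : ∃ d, B = β + l + 1 + d := ⟨B - (β + l + 1), by omega⟩
    have hd' : B - (β + l) - 1 = d := by omega
    have h4 : (PowerSeries.X + PowerSeries.C (-((k : ℚ) + 1))) ^ (β + l + 1) *
        iv (-((k : ℚ) + 1)) ^ (β + l + 1) = 1 := by
      rw [← mul_pow, lin_mul_iv hk0, one_pow]
    have h5 : (PowerSeries.X + PowerSeries.C ((n : ℚ) - 1 - k)) ^ (β + l + 1) *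
        iv ((n : ℚ) - 1 - k) ^ (β + l + 1) = 1 := by
      rw [← mul_pow, lin_mul_iv hk1, one_pow]
    unfold PjW etS
    rw [hd']
    simp only [map_mul, map_add, map_pow, t1, t2, TS_C]
    rw [hd, pow_add _ (β + l + 1) d, pow_add _ (β + l + 1) d]
    linear_combination
      (PowerSeries.C (a l) * PowerSeries.C ((β + l).choose l : ℚ) * PowerSeries.C (-1 : ℚ) ^ (β + l) *
        (PowerSeries.X + PowerSeries.C (-((k : ℚ) + 1))) ^ d *
        ((PowerSeries.X + PowerSeries.C ((n : ℚ) - 1 - k)) ^ (β + l + 1) *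
          (PowerSeries.X + PowerSeries.C ((n : ℚ) - 1 - k)) ^ d)) * h4 +
      (PowerSeries.C (a l) * PowerSeries.C ((β + l).choose l : ℚ) *
        (PowerSeries.X + PowerSeries.C ((n : ℚ) - 1 - k)) ^ d *
        ((PowerSeries.X + PowerSeries.C (-((k : ℚ) + 1))) ^ (β + l + 1) *
          (PowerSeries.X + PowerSeries.C (-((k : ℚ) + 1))) ^ d)) * h5
  rw [← h2, ← mul_sub]
  exact Dvd.dvd.mul_left h1 _

end

end Pool.Agent.Helper76.RJ
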