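import Pool.Agent.Helper76.RJ.ZE

/-!
# Integrality and size of the forms
-/

set_option autoImplicit false

open Polynomial Pool.Agent.H337R2 Pool.Agent.W165.OZ Pool.Agent.Y926.LZ Pool.Agent.Y926.TW Filter

namespace Pool.Agent.Helper76.RJ

open Pool.Agent.N797.PW Pool.Agent.N797.PW.INT

noncomputable section

/-- integrality of the finite part -/
lemma TF_int {h ν β B γ l : ℕ} {c : ℕ → ℕ → ℤ} (hβB : β < B) (hl : l ≤ γ * (2 * ν + 1))
    (hTC : TC h (2 * ν + 1) c B) :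
    Iz ((DW (2 * ν + 1) (2 * h + 2 * B) (2 * γ + 2) : ℚ) * TF h (2 * ν + 1) c (gq (2 * ν + 1) l) β) := by
  have h1 : S_JI := t_ji
  have h2 : S_JZ := t_jz
  have h3 : S_TAY := t_tay
  set n := 2 * ν + 1 with hn
  have hn1 : 1 ≤ n := by omega
  set D : ℚ := (DW n (2 * h + 2 * B) (2 * γ + 2) : ℚ) with hD
  have hT : ∀ v ∈ Finset.range n, Iz (D * Tm h n c (gq n l) β (-(v : ℤ))) := by
    intro v hv
    rw [Finset.mem_range] at hv
    rw [h3 h n c (gq n l) β (-(v : ℤ)), mul_add]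
    apply Iz.add
    · rw [Finset.mul_sum]
      apply Iz.sum
      intro l' hl'
      rw [Finset.mem_range] at hl'
      have h4 : Iz (D * PowerSeries.coeff l' (TS ((-(v : ℤ) : ℤ) : ℚ) (gq n l))) :=
        h1 n l γ (2 * h + 2 * B) l' (-(v : ℤ)) hn1 hl (by omega)
      have h5 : Iz (ev h n c (β - l') (-(v : ℤ))) := hTC v hv (β - l') (by omega)
      have h6 := ((Iz.npow (-1) l').mul h4).mul h5
      convert h6 using 1
      push_cast
      ring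
    · have h4 : Iz (∑ k ∈ nd n (-(v : ℤ)), ∑ i ∈ Finset.Icc 1 (2 * h), (c i k : ℚ) *
          (D * PowerSeries.coeff (i - 1) (TS (-(k : ℚ))
            (gq n l /ₘ (X - C ((-(v : ℤ) : ℤ) : ℚ)) ^ (β + 1))))) := by
        apply Iz.sum
        intro k hk
        unfold nd at hk
        rw [Finset.mem_filter, Finset.mem_range] at hk
        apply Iz.sum
        intro i hi
        rw [Finset.mem_Icc] at hi
        apply (Iz.int (c i k)).mul
        exact q_int h2 hn1 hl (-(v : ℤ)) hk.2 (by omega) (by omega)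
      have h5 := (Iz.npow (-1) (β + 1)).mul h4
      convert h5 using 1
      rw [mul_left_comm, Finset.mul_sum]
      push_cast
      congr 1
      apply Finset.sum_congr rfl
      intro k _
      rw [Finset.mul_sum]
      apply Finset.sum_congr rfl
      intro i _
      ring
  unfold TF
  rw [Finset.mul_sum]
  exact Iz.sum _ _ hT

/-- integrality of the forms -/
lemma LA_int (a z : ℕ → ℚ) {D h ν β B γ l q : ℕ} {c : ℕ → ℕ → ℤ} (hβB : β + D < B)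
    (hl : l ≤ γ * (2 * ν + 1)) (hAS : AS h (2 * ν + 1) c) (hTC : TC h (2 * ν + 1) c B)
    (hz : ∀ j, Odd (β + j) → β < j → j ≤ 2 * h + β → ∃ x : ℤ, (q : ℚ) * z j = x)
    (ha : ∀ l ≤ D, ∃ x : ℤ, (q : ℚ) * a l = x) :
    ∃ M : ℤ, (q : ℚ) * (DW (2 * ν + 1) (2 * h + 2 * B) (2 * γ + 2) : ℚ) *
      LA a z D h (2 * ν + 1) c (gq (2 * ν + 1) l) β = M := by
  set n := 2 * ν + 1 with hn
  have hn1 : 1 ≤ n := by omega
  set Dw : ℚ := (DW n (2 * h + 2 * B) (2 * γ + 2) : ℚ) with hD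
  have hR : ∀ i ∈ Finset.Icc 1 (2 * h),
      Iz (Cb β i * (Dw * rh h n c (gq n l) i) * ((q : ℚ) * z (i + β))) := by
    intro i hi
    rw [Finset.mem_Icc] at hi
    rcases Nat.even_or_odd i with h4 | h4
    · rw [rh_even hAS h4 hi.1]
      simp only [mul_zero, zero_mul]
      exact Iz.zero
    · have h5 : Iz (Cb β i) := by
        unfold Cb
        exact Iz.nat _
      have h6 : Iz ((q : ℚ) * z (i + β)) := by
        refine hz (i + β) ?_ (by omega) (by omega)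
        have : β + (i + β) = i + 2 * β := by ring
        rw [this]
        exact h4.add_even (even_two_mul β)
      exact (h5.mul (rh_int t_ji c hn1 hl (by omega) i)).mul h6
  have hA : ∀ l' ∈ Finset.range (D + 1), Iz (((q : ℚ) * a l') * ((β + l').choose l' : ℚ) *
      (Dw * TF h n c (gq n l) (β + l'))) := by
    intro l' hl'
    have h1 := Finset.mem_range.1 hl'
    exact (Iz.mul (ha l' (by omega)) (Iz.nat _)).mul (TF_int (by omega) hl hTC)
  have h7 := (Iz.sum _ _ hR).sub (Iz.sum _ _ hA)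
  obtain ⟨M, hM⟩ := h7
  refine ⟨M, ?_⟩
  rw [← hM]
  unfold LA
  rw [mul_sub, Finset.mul_sum, Finset.mul_sum]
  congr 1
  · apply Finset.sum_congr rfl
    intro i _
    ring
  · apply Finset.sum_congr rfl
    intro v _
    ring

lemma zr_le_two {e : ℕ} (he : 2 ≤ e) : |zr e| ≤ 2 := by
  have hs : Summable fun s : ℕ => 1 / ((s : ℝ) + 1) ^ e := (JReal.zr_hasSum he).summable
  have h0 : 0 ≤ zr e := tsum_nonneg fun s => by positivity
  rw [abs_of_nonneg h0]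
  have h2 : zr e ≤ zr 2 := by
    refine hs.tsum_le_tsum (fun s => ?_) (JReal.zr_hasSum le_rfl).summable
    apply one_div_le_one_div_of_le (by positivity)
    exact pow_le_pow_right₀ (by linarith [Nat.cast_nonneg (α := ℝ) s]) he
  have h3 : zr 2 ≤ 2 := by
    have h4 : zr 2 = Real.pi ^ 2 / 6 := by
      have h5 := hasSum_zeta_two
      have h6 : HasSum (fun s : ℕ => (1 : ℝ) / ((s : ℝ) + 1) ^ 2) (Real.pi ^ 2 / 6) := by
        have := (hasSum_nat_add_iff' (f := fun n : ℕ => (1 : ℝ) / (n : ℝ) ^ 2) 1).2 h5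
        simpa using this
      exact h6.tsum_eq
    rw [h4]
    have h5 := Real.pi_lt_d2
    have h6 := Real.pi_pos
    nlinarith
  linarith

/-- the size of the coefficients of the zeta values -/
lemma cf_le {h ν β l H i : ℕ} {c : ℕ → ℕ → ℤ} (hcH : ∀ i k, |c i k| ≤ (H : ℤ)) (hi : i ∈ Finset.Icc 1 (2 * h)) :
    |((Cb β i * rh h (2 * ν + 1) c (gq (2 * ν + 1) l) i : ℚ) : ℝ)| ≤
      2 ^ (2 * h + β) * (H * (2 * (ν : ℝ) + 1) * 8 ^ (l + (2 * ν + 1))) := by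
  rw [Finset.mem_Icc] at hi
  have h5 := DIFF.Cb_le (β := β) hi.1 hi.2
  have h6 := DIFF.rh_le t_jb (h := h) (n := 2 * ν + 1) (l := l) (i := i) (by omega) hcH hi.1
  have h7 : |Cb β i * rh h (2 * ν + 1) c (gq (2 * ν + 1) l) i| ≤
      2 ^ (2 * h + β) * (H * ((2 * ν + 1 : ℕ) : ℚ) * 8 ^ (l + (2 * ν + 1))) := by
    rw [abs_mul]
    exact mul_le_mul h5 h6 (abs_nonneg _) (by positivity)
  have h8 : ((|Cb β i * rh h (2 * ν + 1) c (gq (2 * ν + 1) l) i| : ℚ) : ℝ) ≤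
      ((2 ^ (2 * h + β) * (H * ((2 * ν + 1 : ℕ) : ℚ) * 8 ^ (l + (2 * ν + 1))) : ℚ) : ℝ) := by
    exact_mod_cast h7
  rw [← Rat.cast_abs]
  refine h8.trans (le_of_eq ?_)
  push_cast
  ring

/-- the size of the finite part -/
lemma TF_le {h ν β B w l H : ℕ} {c : ℕ → ℕ → ℤ} (hβ : 2 ≤ β) (hβB : β < B) (hl : l ≤ w * (2 * ν + 1))
    (hAS : AS h (2 * ν + 1) c) (hcH : ∀ i k, |c i k| ≤ (H : ℤ)) (hTA : TA h (2 * ν + 1) c (w * (2 * ν + 1)))
    (hTB : TB h (2 * ν + 1) c 16 B) :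
    |((TF h (2 * ν + 1) c (gq (2 * ν + 1) l) β : ℚ) : ℝ)| ≤
      (2 ^ (B + 10) + 4 * h * 2 ^ (2 * h + B)) * (2 * (ν : ℝ) + 1) ^ 3 * (H * 8 ^ (l + (2 * ν + 1))) := by
  have hS : S_SML := t_sml t_tay t_real t_jb t_sy
  have h1 := hS h ν β B w 16 l H c hβ hβB (by norm_num) hl hAS hcH hTA hTB
  set n := 2 * ν + 1 with hn
  set N : ℝ := 2 * (ν : ℝ) + 1 with hN
  have hN1 : 1 ≤ N := by rw [hN]; linarith [Nat.cast_nonneg (α := ℝ) ν]
  have e1 : ((TF h n c (gq n l) β : ℚ) : ℝ) =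
      ∑ i ∈ Finset.Icc 1 (2 * h), ((Cb β i * rh h n c (gq n l) i : ℚ) : ℝ) * zr (i + β) -
        LR h n c (gq n l) β := by
    unfold TF LR
    push_cast
    ring
  have h2 : |∑ i ∈ Finset.Icc 1 (2 * h), ((Cb β i * rh h n c (gq n l) i : ℚ) : ℝ) * zr (i + β)| ≤
      4 * h * 2 ^ (2 * h + B) * N ^ 3 * (H * 8 ^ (l + n)) := by
    refine (Finset.abs_sum_le_sum_abs _ _).trans ?_
    have h3 : ∀ i ∈ Finset.Icc 1 (2 * h), |((Cb β i * rh h n c (gq n l) i : ℚ) : ℝ) * zr (i + β)| ≤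
        2 ^ (2 * h + B) * (H * N * 8 ^ (l + n)) * 2 := by
      intro i hi
      rw [abs_mul]
      refine mul_le_mul ((cf_le hcH hi).trans ?_) (zr_le_two (by rw [Finset.mem_Icc] at hi; omega))
        (abs_nonneg _) (by positivity)
      gcongr
      · norm_num
    refine (Finset.sum_le_sum h3).trans ?_
    rw [Finset.sum_const, Nat.card_Icc, nsmul_eq_mul]
    have h4 : N ≤ N ^ 3 := by
      calc N = N ^ 1 := (pow_one N).symm
        _ ≤ N ^ 3 := pow_le_pow_right₀ hN1 (by norm_num)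
    have h5 : (((2 * h + 1 - 1 : ℕ)) : ℝ) = 2 * h := by
      rw [Nat.add_sub_cancel]; push_cast; ring
    rw [h5]
    calc 2 * (h : ℝ) * (2 ^ (2 * h + B) * (H * N * 8 ^ (l + n)) * 2)
        = 4 * h * 2 ^ (2 * h + B) * N * (H * 8 ^ (l + n)) := by ring
      _ ≤ _ := by gcongr
  have h3 : |LR h n c (gq n l) β| ≤ 2 ^ (B + 10) * N ^ 3 * (H * 8 ^ (l + n)) := by
    refine h1.trans ?_
    have h4 : (2 / ((16 : ℕ) : ℝ)) ^ (2 * (w * n) + 2 - 2 * l) ≤ 1 := by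
      apply pow_le_one₀ <;> norm_num
    have h5 : (2 : ℝ) ^ (β + 2) * ((16 : ℕ) : ℝ) ^ 2 ≤ 2 ^ (B + 10) := by
      have : ((16 : ℕ) : ℝ) ^ 2 = 2 ^ 8 := by norm_num
      rw [this, ← pow_add]
      exact pow_le_pow_right₀ (by norm_num) (by omega)
    calc 2 ^ (β + 2) * ((16 : ℕ) : ℝ) ^ 2 * N ^ 3 * H * 8 ^ (l + n) *
        (2 / ((16 : ℕ) : ℝ)) ^ (2 * (w * n) + 2 - 2 * l)
        ≤ 2 ^ (β + 2) * ((16 : ℕ) : ℝ) ^ 2 * N ^ 3 * H * 8 ^ (l + n) * 1 := by gcongr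
      _ = (2 ^ (β + 2) * ((16 : ℕ) : ℝ) ^ 2) * (N ^ 3 * (H * 8 ^ (l + n))) := by ring
      _ ≤ 2 ^ (B + 10) * (N ^ 3 * (H * 8 ^ (l + n))) := by gcongr
      _ = _ := by ring
  rw [e1]
  have h4 := abs_sub (∑ i ∈ Finset.Icc 1 (2 * h), ((Cb β i * rh h n c (gq n l) i : ℚ) : ℝ) * zr (i + β))
    (LR h n c (gq n l) β)
  calc _ ≤ _ := h4
    _ ≤ 4 * h * 2 ^ (2 * h + B) * N ^ 3 * (H * 8 ^ (l + n)) + 2 ^ (B + 10) * N ^ 3 * (H * 8 ^ (l + n)) :=
        add_le_add h2 h3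
    _ = _ := by ring

/-- the difference of the two forms -/
lemma LA_dif (x : ℕ → ℝ) (a z : ℕ → ℚ) {D h ν β B w l H : ℕ} {c : ℕ → ℕ → ℤ} {δ : ℝ} (hδ : 0 ≤ δ)
    (hβ : 2 ≤ β) (hβB : β + D < B) (hl : l ≤ w * (2 * ν + 1))
    (hAS : AS h (2 * ν + 1) c) (hcH : ∀ i k, |c i k| ≤ (H : ℤ)) (hTA : TA h (2 * ν + 1) c (w * (2 * ν + 1)))
    (hTB : TB h (2 * ν + 1) c 16 B)
    (hz : ∀ j, Odd (β + j) → β < j → j ≤ 2 * h + β → |xj D x j - (z j : ℝ)| ≤ δ)
    (ha : ∀ l ≤ D, |x l - (a l : ℝ)| ≤ δ) :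
    |LAR x D h (2 * ν + 1) c (gq (2 * ν + 1) l) β - (LA a z D h (2 * ν + 1) c (gq (2 * ν + 1) l) β : ℝ)| ≤
      ((2 * h * 2 ^ (2 * h + B) + (D + 1) * 2 ^ B * (2 ^ (B + 10) + 4 * h * 2 ^ (2 * h + B))) *
        (2 * (ν : ℝ) + 1) ^ 3 * (H * 8 ^ (l + (2 * ν + 1)))) * δ := by
  rw [LAR_eq]
  set n := 2 * ν + 1 with hn
  set N : ℝ := 2 * (ν : ℝ) + 1 with hN
  have hN1 : 1 ≤ N := by rw [hN]; linarith [Nat.cast_nonneg (α := ℝ) ν]
  have h4 : N ≤ N ^ 3 := by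
    calc N = N ^ 1 := (pow_one N).symm
      _ ≤ N ^ 3 := pow_le_pow_right₀ hN1 (by norm_num)
  set K : ℝ := (2 ^ (B + 10) + 4 * h * 2 ^ (2 * h + B)) * N ^ 3 * (H * 8 ^ (l + n)) with hK
  have hK0 : 0 ≤ K := by positivity
  have e1 : (∑ i ∈ Finset.Icc 1 (2 * h), ((Cb β i * rh h n c (gq n l) i : ℚ) : ℝ) * xj D x (i + β) -
      ∑ l' ∈ Finset.range (D + 1), x l' * ((β + l').choose l' : ℝ) * ((TF h n c (gq n l) (β + l') : ℚ) : ℝ)) -
      (LA a z D h n c (gq n l) β : ℝ) =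
      ∑ i ∈ Finset.Icc 1 (2 * h), ((Cb β i * rh h n c (gq n l) i : ℚ) : ℝ) *
        (xj D x (i + β) - (z (i + β) : ℝ)) -
      ∑ l' ∈ Finset.range (D + 1), (x l' - (a l' : ℝ)) * (((β + l').choose l' : ℝ) *
        ((TF h n c (gq n l) (β + l') : ℚ) : ℝ)) := by
    unfold LA
    push_cast
    simp only [mul_sub, sub_mul, Finset.sum_sub_distrib, mul_assoc]
    ring
  rw [e1]
  have h2 : |∑ i ∈ Finset.Icc 1 (2 * h), ((Cb β i * rh h n c (gq n l) i : ℚ) : ℝ) *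
        (xj D x (i + β) - (z (i + β) : ℝ))| ≤
      (2 * h * 2 ^ (2 * h + B) * N ^ 3 * (H * 8 ^ (l + n))) * δ := by
    refine (Finset.abs_sum_le_sum_abs _ _).trans ?_
    have h3 : ∀ i ∈ Finset.Icc 1 (2 * h), |((Cb β i * rh h n c (gq n l) i : ℚ) : ℝ) *
        (xj D x (i + β) - (z (i + β) : ℝ))| ≤ 2 ^ (2 * h + B) * (H * N * 8 ^ (l + n)) * δ := by
      intro i hi
      have hi' := Finset.mem_Icc.1 hi
      rcases Nat.even_or_odd i with he | ho
      · rw [rh_even hAS he hi'.1, mul_zero, Rat.cast_zero, zero_mul, abs_zero]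
        positivity
      · rw [abs_mul]
        have h3 := hz (i + β) (by
          have : β + (i + β) = i + 2 * β := by ring
          rw [this]
          exact ho.add_even (even_two_mul β)) (by omega) (by omega)
        refine mul_le_mul ((cf_le hcH hi).trans ?_) h3 (abs_nonneg _) (by positivity)
        gcongr
        · norm_num
        · omega
    refine (Finset.sum_le_sum h3).trans ?_
    rw [Finset.sum_const, Nat.card_Icc, nsmul_eq_mul]
    have h5 : (((2 * h + 1 - 1 : ℕ)) : ℝ) = 2 * h := by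
      rw [Nat.add_sub_cancel]; push_cast; ring
    rw [h5]
    calc 2 * (h : ℝ) * (2 ^ (2 * h + B) * (H * N * 8 ^ (l + n)) * δ)
        = 2 * h * 2 ^ (2 * h + B) * N * (H * 8 ^ (l + n)) * δ := by ring
      _ ≤ _ := by gcongr
  have h3 : |∑ l' ∈ Finset.range (D + 1), (x l' - (a l' : ℝ)) * (((β + l').choose l' : ℝ) *
        ((TF h n c (gq n l) (β + l') : ℚ) : ℝ))| ≤ ((D + 1) * 2 ^ B * K) * δ := by
    refine (Finset.abs_sum_le_sum_abs _ _).trans ?_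
    have h5 : ∀ l' ∈ Finset.range (D + 1), |(x l' - (a l' : ℝ)) * (((β + l').choose l' : ℝ) *
        ((TF h n c (gq n l) (β + l') : ℚ) : ℝ))| ≤ δ * (2 ^ B * K) := by
      intro l' hl'
      have h6 := Finset.mem_range.1 hl'
      rw [abs_mul, abs_mul, Nat.abs_cast]
      refine mul_le_mul (ha l' (by omega)) ?_ (by positivity) hδ
      refine mul_le_mul ?_ (TF_le (by omega) (by omega) hl hAS hcH hTA hTB) (abs_nonneg _) (by positivity)
      have h7 : (β + l').choose l' ≤ 2 ^ B :=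
        (Nat.choose_le_two_pow _ _).trans (Nat.pow_le_pow_right (by norm_num) (by omega))
      exact_mod_cast h7
    refine (Finset.sum_le_sum h5).trans (le_of_eq ?_)
    rw [Finset.sum_const, Finset.card_range, nsmul_eq_mul]
    push_cast
    ring
  have h5 := abs_sub (∑ i ∈ Finset.Icc 1 (2 * h), ((Cb β i * rh h n c (gq n l) i : ℚ) : ℝ) *
        (xj D x (i + β) - (z (i + β) : ℝ))) (∑ l' ∈ Finset.range (D + 1), (x l' - (a l' : ℝ)) *
        (((β + l').choose l' : ℝ) * ((TF h n c (gq n l) (β + l') : ℚ) : ℝ)))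
  calc _ ≤ _ := h5
    _ ≤ _ := add_le_add h2 h3
    _ = _ := by rw [hK]; ring

/-- the forms are small -/
lemma LAR_sml (x : ℕ → ℝ) {C0 : ℝ} {D h ν β B w l H : ℕ} {c : ℕ → ℕ → ℤ} (hC : ∀ l ≤ D, |x l| ≤ C0)
    (hβ : 2 ≤ β) (hβB : β + D < B) (hl : l ≤ w * (2 * ν + 1))
    (hAS : AS h (2 * ν + 1) c) (hcH : ∀ i k, |c i k| ≤ (H : ℤ)) (hTA : TA h (2 * ν + 1) c (w * (2 * ν + 1)))
    (hTB : TB h (2 * ν + 1) c 16 B) :
    |LAR x D h (2 * ν + 1) c (gq (2 * ν + 1) l) β| ≤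
      ((D + 1) * 2 ^ B * C0) * (2 ^ (B + 2) * ((16 : ℕ) : ℝ) ^ 2 * (2 * (ν : ℝ) + 1) ^ 3 * H *
        8 ^ (l + (2 * ν + 1)) * (2 / ((16 : ℕ) : ℝ)) ^ (2 * (w * (2 * ν + 1)) + 2 - 2 * l)) := by
  have hS : S_SML := t_sml t_tay t_real t_jb t_sy
  have hC0 : 0 ≤ C0 := (abs_nonneg _).trans (hC 0 (Nat.zero_le _))
  unfold LAR
  refine (Finset.abs_sum_le_sum_abs _ _).trans ?_
  set K : ℝ := (2 ^ (B + 2) * ((16 : ℕ) : ℝ) ^ 2 * (2 * (ν : ℝ) + 1) ^ 3 * H *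
        8 ^ (l + (2 * ν + 1)) * (2 / ((16 : ℕ) : ℝ)) ^ (2 * (w * (2 * ν + 1)) + 2 - 2 * l)) with hK
  have hK0 : 0 ≤ K := by positivity
  have h5 : ∀ l' ∈ Finset.range (D + 1), |x l' * ((β + l').choose l' : ℝ) *
      LR h (2 * ν + 1) c (gq (2 * ν + 1) l) (β + l')| ≤ C0 * 2 ^ B * K := by
    intro l' hl'
    have h6 := Finset.mem_range.1 hl'
    rw [abs_mul, abs_mul, Nat.abs_cast]
    have h7 : (β + l').choose l' ≤ 2 ^ B :=
      (Nat.choose_le_two_pow _ _).trans (Nat.pow_le_pow_right (by norm_num) (by omega))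
    have h7' : (((β + l').choose l' : ℕ) : ℝ) ≤ 2 ^ B := by exact_mod_cast h7
    have h8 := hS h ν (β + l') B w 16 l H c (by omega) (by omega) (by norm_num) hl hAS hcH hTA hTB
    refine mul_le_mul (mul_le_mul (hC l' (by omega)) h7' (by positivity) hC0) (h8.trans ?_) (abs_nonneg _)
      (by positivity)
    rw [hK]
    have h9 : (2 : ℝ) ^ (β + l' + 2) ≤ 2 ^ (B + 2) := pow_le_pow_right₀ (by norm_num) (by omega)
    gcongr
  refine (Finset.sum_le_sum h5).trans (le_of_eq ?_)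
  rw [Finset.sum_const, Finset.card_range, nsmul_eq_mul]
  push_cast
  ring

end

end Pool.Agent.Helper76.RJ
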