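import Pool.Agent.Helper76.RJ.Fin

/-!
# The minors of the matrix `C(a+b, b) ζ(a+b+1)` do not vanish
-/

set_option autoImplicit false

open Polynomial Pool.Agent.H337R2 MeasureTheory Set

namespace Pool.Agent.Helper76.RJ

noncomputable section

/-- the number of sign variations is smaller than the number of terms -/
lemma sv_lt (P : ℝ[X]) (hP : P ≠ 0) : signVariations P + 1 ≤ P.support.card := by
  induction' hN : P.support.card using Nat.strong_induction_on with N ih generalizing P
  by_cases he : P.eraseLead = 0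
  · have h1 : P = monomial P.natDegree P.leadingCoeff := by
      conv_lhs => rw [← P.eraseLead_add_monomial_natDegree_leadingCoeff, he, zero_add]
    have h2 : signVariations P = 0 := by
      rw [h1]
      exact signVariations_monomial _ _
    have h3 : 0 < P.support.card := Finset.card_pos.2 (by rwa [nonempty_support_iff])
    omega
  · have h1 := card_support_eraseLead' (f := P) (c := P.support.card - 1) (by
      have h3 : 0 < P.support.card := Finset.card_pos.2 (by rwa [nonempty_support_iff])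
      omega)
    have h3 : 0 < P.support.card := Finset.card_pos.2 (by rwa [nonempty_support_iff])
    have h2 := ih (P.support.card - 1) (by omega) P.eraseLead he h1
    have h4 := signVariations_le_eraseLead_succ (P := P)
    omega

lemma countP_lt (P : ℝ[X]) (hP : P ≠ 0) : P.roots.countP (0 < ·) + 1 ≤ P.support.card := by
  have h1 := roots_countP_pos_le_signVariations P
  have h2 := sv_lt P hP
  omega

/-- a polynomial without positive roots has constant sign on the positive reals -/
lemma const_sign (G : ℝ[X]) (hG : ∀ t : ℝ, 0 < t → G.eval t ≠ 0) :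
    (∀ t : ℝ, 0 < t → 0 < G.eval t) ∨ (∀ t : ℝ, 0 < t → G.eval t < 0) := by
  have hc : ContinuousOn (fun t => G.eval t) (Ioi (0 : ℝ)) := G.continuous.continuousOn
  have hpre : IsPreconnected (Ioi (0 : ℝ)) := isPreconnected_Ioi
  by_contra hcon
  push Not at hcon
  obtain ⟨⟨s, hs, hs1⟩, t, ht, ht1⟩ := hcon
  have h1 := hpre.image _ hc
  have h2 : (0 : ℝ) ∈ (fun t => G.eval t) '' Ioi (0 : ℝ) := by
    have h3 := h1.ordConnected
    exact h3.out (Set.mem_image_of_mem _ (show s ∈ Ioi (0 : ℝ) from hs))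
      (Set.mem_image_of_mem _ (show t ∈ Ioi (0 : ℝ) from ht)) ⟨hs1, ht1⟩
  obtain ⟨u, hu, hu0⟩ := h2
  exact hG u hu hu0

/-- For a polynomial `W` with at most `r` terms and `r` exponents `b k` there is a combination `Q` of the `X^(b k)` such
that `W Q ≥ 0` on the positive reals. -/
lemma exists_match (r : ℕ) (W : ℝ[X]) (hW : W ≠ 0) (hWr : W.support.card ≤ r) (b : Fin r → ℕ)
    (hb : Function.Injective b) :
    ∃ q : Fin r → ℝ, (∑ k, C (q k) * X ^ b k : ℝ[X]) ≠ 0 ∧
      ∀ t : ℝ, 0 < t → 0 ≤ (W * ∑ k, C (q k) * X ^ b k : ℝ[X]).eval t := by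
  classical
  obtain ⟨p, hp⟩ : ∃ p, p = W.roots.countP (0 < ·) := ⟨_, rfl⟩
  have hpr : p + 1 ≤ r := by
    have := countP_lt W hW
    omega
  obtain ⟨R, hR⟩ : ∃ R : Multiset ℝ, R = W.roots.filter (0 < ·) := ⟨_, rfl⟩
  have hRc : R.card = p := by rw [hR, hp, Multiset.countP_eq_card_filter]
  obtain ⟨U, hU⟩ : ∃ U : ℝ[X], U = (R.map fun a => X - C a).prod := ⟨_, rfl⟩
  have hUm : U.Monic := by rw [hU]; exact monic_multisetProd_X_sub_C R
  have hUr : U.roots = R := by rw [hU]; exact roots_multiset_prod_X_sub_C R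
  have hUd : U.natDegree = p := by rw [hU, natDegree_multiset_prod_X_sub_C_eq_card, hRc]
  have hUW : U ∣ W := by
    rw [hU]
    refine (Multiset.prod_X_sub_C_dvd_iff_le_roots hW R).2 ?_
    rw [hR]
    exact Multiset.filter_le _ _
  -- the linear map
  let g : (Fin (p + 1) → ℝ) →ₗ[ℝ] ℝ[X] :=
    { toFun := fun q => ∑ k, C (q k) * X ^ b (Fin.castLE hpr k)
      map_add' := fun x y => by
        rw [← Finset.sum_add_distrib]
        refine Finset.sum_congr rfl fun k _ => ?_
        rw [Pi.add_apply, C_add, add_mul]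
      map_smul' := fun a x => by
        rw [RingHom.id_apply, smul_eq_C_mul, Finset.mul_sum]
        refine Finset.sum_congr rfl fun k _ => ?_
        rw [Pi.smul_apply, smul_eq_mul, C_mul, mul_assoc] }
  let f0 : (Fin (p + 1) → ℝ) →ₗ[ℝ] (Fin p → ℝ) :=
    LinearMap.pi fun i => (lcoeff ℝ (i : ℕ)).comp ((modByMonicHom U).comp g)
  have hker : LinearMap.ker f0 ≠ ⊥ := by
    apply LinearMap.ker_ne_bot_of_finrank_lt
    rw [Module.finrank_fin_fun, Module.finrank_fin_fun]
    omega
  obtain ⟨q0, hq0, hq0ne⟩ := (Submodule.ne_bot_iff _).1 hker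
  have hgq : g q0 %ₘ U = 0 := by
    rcases Nat.eq_zero_or_pos p with h0 | h0
    · have hU1 : U = 1 := by
        apply hUm.natDegree_eq_zero.1
        rw [hUd, h0]
      rw [hU1, modByMonic_one]
    · ext i
      rw [coeff_zero]
      by_cases hi : i < p
      · have h1 := congrFun (LinearMap.mem_ker.1 hq0) ⟨i, hi⟩
        exact h1
      · apply coeff_eq_zero_of_natDegree_lt
        have := natDegree_modByMonic_lt (g q0) hUm (by
          intro h1
          rw [h1, natDegree_one] at hUd
          omega)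
        omega
  have hUQ : U ∣ g q0 := (modByMonic_eq_zero_iff_dvd hUm).1 hgq
  have hinj : Function.Injective fun k : Fin (p + 1) => b (Fin.castLE hpr k) :=
    hb.comp (Fin.castLE_injective hpr)
  have hgne : g q0 ≠ 0 := by
    intro h0
    apply hq0ne
    funext k
    have h1 := congrArg (fun P : ℝ[X] => P.coeff (b (Fin.castLE hpr k))) h0
    change (∑ k', C (q0 k') * X ^ b (Fin.castLE hpr k') : ℝ[X]).coeff (b (Fin.castLE hpr k)) =
      (0 : ℝ[X]).coeff _ at h1
    rw [finsetSum_coeff, coeff_zero, Finset.sum_eq_single k] at h1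
    · simpa using h1
    · intro k' _ hne
      rw [coeff_C_mul, coeff_X_pow, if_neg, mul_zero]
      intro h2
      exact hne (hinj h2).symm
    · intro h2
      exact absurd (Finset.mem_univ k) h2
  have hsupp : (g q0).support.card ≤ p + 1 := by
    have h1 : (g q0).support ⊆ Finset.univ.image (fun k : Fin (p + 1) => b (Fin.castLE hpr k)) := by
      intro i hi
      by_contra hi2
      rw [mem_support_iff] at hi
      apply hi
      change (∑ k', C (q0 k') * X ^ b (Fin.castLE hpr k') : ℝ[X]).coeff i = 0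
      rw [finsetSum_coeff]
      refine Finset.sum_eq_zero fun k _ => ?_
      rw [coeff_C_mul, coeff_X_pow, if_neg, mul_zero]
      intro h2
      exact hi2 (Finset.mem_image.2 ⟨k, Finset.mem_univ _, h2.symm⟩)
    refine (Finset.card_le_card h1).trans (Finset.card_image_le.trans ?_)
    rw [Finset.card_univ, Fintype.card_fin]
  obtain ⟨W1, hW1⟩ := hUW
  obtain ⟨Q1, hQ1⟩ := hUQ
  have hW1ne : W1 ≠ 0 := by rintro rfl; exact hW (by rw [hW1, mul_zero])
  have hQ1ne : Q1 ≠ 0 := by rintro rfl; exact hgne (by rw [hQ1, mul_zero])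
  have hRall : R.countP (0 < ·) = p := by
    rw [hR, Multiset.countP_filter]
    simp only [and_self]
    exact hp.symm
  have hW1r : W1.roots.countP (0 < ·) = 0 := by
    have h1 : W.roots = U.roots + W1.roots := by rw [hW1, roots_mul (by rw [← hW1]; exact hW)]
    have h2 := congrArg (Multiset.countP (0 < ·)) h1
    rw [Multiset.countP_add, hUr, hRall, ← hp] at h2
    omega
  have hQ1r : Q1.roots.countP (0 < ·) = 0 := by
    have h1 : (g q0).roots = U.roots + Q1.roots := by rw [hQ1, roots_mul (by rw [← hQ1]; exact hgne)]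
    have h2 := congrArg (Multiset.countP (0 < ·)) h1
    rw [Multiset.countP_add, hUr, hRall] at h2
    have h3 := countP_lt (g q0) hgne
    omega
  have hno : ∀ P : ℝ[X], P ≠ 0 → P.roots.countP (0 < ·) = 0 → ∀ t : ℝ, 0 < t → P.eval t ≠ 0 := by
    intro P hP h0 t ht h1
    rw [Multiset.countP_eq_zero] at h0
    exact h0 t ((mem_roots hP).2 h1) ht
  have hG := const_sign (W1 * Q1) (fun t ht => by
    rw [eval_mul]
    exact mul_ne_zero (hno W1 hW1ne hW1r t ht) (hno Q1 hQ1ne hQ1r t ht))
  -- extension by zero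
  have hext : ∀ σ : ℝ, (∑ k : Fin r, C (if h : (k : ℕ) < p + 1 then σ * q0 ⟨k, h⟩ else 0) * X ^ b k : ℝ[X]) =
      C σ * g q0 := by
    intro σ
    change _ = C σ * (∑ k', C (q0 k') * X ^ b (Fin.castLE hpr k') : ℝ[X])
    rw [Finset.mul_sum]
    symm
    refine Finset.sum_bij_ne_zero (fun k _ _ => Fin.castLE hpr k) (fun _ _ _ => Finset.mem_univ _)
      (fun a _ _ a' _ _ h => Fin.castLE_injective hpr h) ?_ ?_
    · intro k _ hk
      by_cases h : (k : ℕ) < p + 1
      · refine ⟨⟨k, h⟩, Finset.mem_univ _, ?_, rfl⟩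
        intro h0
        apply hk
        rw [dif_pos h, C_mul, mul_assoc]
        exact h0
      · exfalso
        apply hk
        rw [dif_neg h, C_0, zero_mul]
    · intro k _ _
      have h : ((Fin.castLE hpr k : Fin r) : ℕ) < p + 1 := k.2
      rw [dif_pos h, C_mul, mul_assoc]
      rfl
  have hval : ∀ (σ : ℝ) (t : ℝ), (W * (C σ * g q0)).eval t = U.eval t ^ 2 * (σ * (W1 * Q1).eval t) := by
    intro σ t
    rw [hW1, hQ1]
    simp only [eval_mul, eval_C]
    ring
  rcases hG with hG | hG
  · refine ⟨fun k : Fin r => if h : (k : ℕ) < p + 1 then 1 * q0 ⟨k, h⟩ else 0, ?_, fun t ht => ?_⟩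
    · rw [hext, C_1, one_mul]
      exact hgne
    · rw [hext, hval]
      have := hG t ht
      positivity
  · refine ⟨fun k : Fin r => if h : (k : ℕ) < p + 1 then (-1) * q0 ⟨k, h⟩ else 0, ?_, fun t ht => ?_⟩
    · rw [hext]
      exact mul_ne_zero (by simp) hgne
    · rw [hext, hval]
      have := hG t ht
      have h2 : 0 ≤ (-1 : ℝ) * (W1 * Q1).eval t := by linarith
      positivity

/-! ### Integrals -/

lemma int_pow (m : ℕ) {r : ℝ} (hr : 0 < r) :
    IntegrableOn (fun t : ℝ => t ^ m * Real.exp (-(r * t))) (Ioi 0) ∧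
    ∫ t in Ioi (0 : ℝ), t ^ m * Real.exp (-(r * t)) = (m.factorial : ℝ) / r ^ (m + 1) := by
  constructor
  · have h1 := integrableOn_rpow_mul_exp_neg_mul_rpow (p := 1) (s := m) (b := r)
      (by have : (0 : ℝ) ≤ m := Nat.cast_nonneg m
          linarith) one_pos hr
    refine h1.congr_fun (fun t ht => ?_) measurableSet_Ioi
    simp only [Real.rpow_natCast, Real.rpow_one, neg_mul]
  · have h1 := Real.integral_rpow_mul_exp_neg_mul_Ioi (a := m + 1) (r := r) (by positivity) hr
    rw [Real.Gamma_nat_eq_factorial] at h1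
    have h2 : ((m : ℝ) + 1) = ((m + 1 : ℕ) : ℝ) := by push_cast; ring
    rw [h2, Real.rpow_natCast] at h1
    have h3 : ∫ t in Ioi (0 : ℝ), t ^ m * Real.exp (-(r * t)) =
        ∫ t in Ioi (0 : ℝ), t ^ (((m + 1 : ℕ) : ℝ) - 1) * Real.exp (-(r * t)) := by
      refine setIntegral_congr_fun measurableSet_Ioi fun t _ => ?_
      rw [show (((m + 1 : ℕ) : ℝ) - 1) = (m : ℝ) by push_cast; ring, Real.rpow_natCast]
    rw [h3, h1]
    rw [one_div, inv_pow]
    ring

/-- a nonnegative polynomial has nonnegative moments -/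
lemma moment_nonneg {ι : Type*} (s : Finset ι) (u : ι → ℝ) (e : ι → ℕ)
    (hf : ∀ t : ℝ, 0 < t → 0 ≤ ∑ i ∈ s, u i * t ^ e i) {r : ℝ} (hr : 0 < r) :
    0 ≤ ∑ i ∈ s, u i * (((e i).factorial : ℝ) / r ^ (e i + 1)) := by
  have h1 : ∫ t in Ioi (0 : ℝ), (∑ i ∈ s, u i * t ^ e i) * Real.exp (-(r * t)) =
      ∑ i ∈ s, u i * (((e i).factorial : ℝ) / r ^ (e i + 1)) := by
    have h2 : ∀ t : ℝ, (∑ i ∈ s, u i * t ^ e i) * Real.exp (-(r * t)) =
        ∑ i ∈ s, u i * (t ^ e i * Real.exp (-(r * t))) := by
      intro t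
      rw [Finset.sum_mul]
      refine Finset.sum_congr rfl fun m _ => ?_
      ring
    simp only [h2]
    rw [integral_finsetSum _ (fun m _ => ((int_pow (e m) hr).1.const_mul _))]
    refine Finset.sum_congr rfl fun m _ => ?_
    rw [integral_const_mul, (int_pow (e m) hr).2]
  rw [← h1]
  refine setIntegral_nonneg measurableSet_Ioi fun t ht => ?_
  exact mul_nonneg (hf t ht) (Real.exp_pos _).le

/-- **The rows of the matrix `C(a+b, b) ζ(a+b+1)` are linearly independent.** -/
theorem rows_indep {r : ℕ} (a b : Fin r → ℕ) (ha : Function.Injective a) (hb : Function.Injective b)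
    (hab : ∀ i k, 1 ≤ a i + b k) (w : Fin r → ℝ)
    (hw : ∀ k, ∑ i, w i * (((a i + b k).choose (b k) : ℝ) * zr (a i + b k + 1)) = 0) : w = 0 := by
  classical
  by_contra hw0
  obtain ⟨W, hWd⟩ : ∃ W : ℝ[X], W = ∑ i, C (w i / ((a i).factorial : ℝ)) * X ^ a i := ⟨_, rfl⟩
  have hfa : ∀ m : ℕ, (m.factorial : ℝ) ≠ 0 := fun m => by
    have := Nat.factorial_pos m
    positivity
  have hW : W ≠ 0 := by
    intro h0
    apply hw0
    funext i
    have h1 := congrArg (fun P : ℝ[X] => P.coeff (a i)) h0
    simp only [hWd] at h1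
    rw [finsetSum_coeff, coeff_zero, Finset.sum_eq_single i] at h1
    · rw [coeff_C_mul, coeff_X_pow, if_pos rfl, mul_one, div_eq_zero_iff] at h1
      rcases h1 with h1 | h1
      · exact h1
      · exact absurd h1 (hfa _)
    · intro i' _ hne
      rw [coeff_C_mul, coeff_X_pow, if_neg, mul_zero]
      intro h2
      exact hne (ha h2).symm
    · intro h2
      exact absurd (Finset.mem_univ i) h2
  have hWr : W.support.card ≤ r := by
    have h1 : W.support ⊆ Finset.univ.image a := by
      intro i hi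
      by_contra hi2
      rw [mem_support_iff] at hi
      apply hi
      rw [hWd, finsetSum_coeff]
      refine Finset.sum_eq_zero fun k _ => ?_
      rw [coeff_C_mul, coeff_X_pow, if_neg, mul_zero]
      intro h2
      exact hi2 (Finset.mem_image.2 ⟨k, Finset.mem_univ _, h2.symm⟩)
    refine (Finset.card_le_card h1).trans (Finset.card_image_le.trans ?_)
    rw [Finset.card_univ, Fintype.card_fin]
  obtain ⟨q, hq0, hq⟩ := exists_match r W hW hWr b hb
  -- the coefficients of the product
  let u : Fin r × Fin r → ℝ := fun p => w p.1 / ((a p.1).factorial : ℝ) * q p.2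
  let e : Fin r × Fin r → ℕ := fun p => a p.1 + b p.2
  have hprod : (W * ∑ k, C (q k) * X ^ b k : ℝ[X]) = ∑ p : Fin r × Fin r, C (u p) * X ^ e p := by
    rw [hWd, Finset.sum_mul_sum, Fintype.sum_prod_type]
    refine Finset.sum_congr rfl fun i _ => Finset.sum_congr rfl fun k _ => ?_
    simp only [u, e]
    rw [C_mul, pow_add]
    ring
  have hpos : ∀ t : ℝ, 0 < t → 0 ≤ ∑ p : Fin r × Fin r, u p * t ^ e p := by
    intro t ht
    have := hq t ht
    rw [hprod, eval_finsetSum] at this
    simpa using this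
  have hmom : ∀ s : ℕ, 0 ≤ ∑ p : Fin r × Fin r, u p * (((e p).factorial : ℝ) / ((s : ℝ) + 1) ^ (e p + 1)) :=
    fun s => moment_nonneg Finset.univ u e hpos (by positivity)
  -- the sum of the moments vanishes
  have hsum : HasSum (fun s : ℕ => ∑ p : Fin r × Fin r, u p * (((e p).factorial : ℝ) /
      ((s : ℝ) + 1) ^ (e p + 1))) (∑ p : Fin r × Fin r, u p * (((e p).factorial : ℝ) * zr (e p + 1))) := by
    refine hasSum_sum fun p _ => HasSum.mul_left _ ?_
    have h1 : HasSum (fun s : ℕ => (1 / ((s : ℝ) + 1) ^ (e p + 1))) (zr (e p + 1)) := by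
      have h2 := hab p.1 p.2
      exact Pool.Agent.N797.PW.JReal.zr_hasSum (by simp only [e]; omega)
    have h2 := h1.mul_left ((e p).factorial : ℝ)
    refine h2.congr_fun fun s => ?_
    rw [mul_one_div]
  have hzero : ∑ p : Fin r × Fin r, u p * (((e p).factorial : ℝ) * zr (e p + 1)) = 0 := by
    rw [Fintype.sum_prod_type, Finset.sum_comm]
    refine Finset.sum_eq_zero fun k _ => ?_
    have h1 := hw k
    have h2 : ∑ i, u (i, k) * (((e (i, k)).factorial : ℝ) * zr (e (i, k) + 1)) =
        q k * ((b k).factorial : ℝ) * ∑ i, w i * (((a i + b k).choose (b k) : ℝ) * zr (a i + b k + 1)) := by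
      rw [Finset.mul_sum]
      refine Finset.sum_congr rfl fun i _ => ?_
      have h3 := Nat.choose_mul_factorial_mul_factorial (n := a i + b k) (k := b k) (by omega)
      rw [Nat.add_sub_cancel] at h3
      have h4 : ((a i + b k).choose (b k) : ℝ) * ((b k).factorial : ℝ) * ((a i).factorial : ℝ) =
          ((a i + b k).factorial : ℝ) := by exact_mod_cast h3
      simp only [u, e]
      have h5 := hfa (a i)
      rw [← h4]
      field_simp
    rw [h2, h1, mul_zero]
  rw [hzero] at hsum
  have hall := (hasSum_zero_iff_of_nonneg hmom).1 hsum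
  -- all moments vanish
  obtain ⟨G, hG⟩ : ∃ G : ℝ[X], G = ∑ p : Fin r × Fin r, C (u p * ((e p).factorial : ℝ)) * X ^ (e p + 1) :=
    ⟨_, rfl⟩
  have hG0 : G = 0 := by
    refine Polynomial.eq_zero_of_infinite_isRoot _ ?_
    refine Set.Infinite.mono (s := (fun s : ℕ => 1 / ((s : ℝ) + 1)) '' Set.univ) ?_ ?_
    · rintro _ ⟨s, _, rfl⟩
      have h1 := congrFun hall s
      simp only [Pi.zero_apply] at h1
      change G.IsRoot _
      rw [IsRoot, hG, eval_finsetSum, ← h1]
      refine Finset.sum_congr rfl fun p _ => ?_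
      rw [eval_mul, eval_C, eval_pow, eval_X]
      beta_reduce
      rw [one_div, inv_pow, div_eq_mul_inv]
      ring
    · refine Set.infinite_univ.image ?_
      intro s _ s' _ h
      have h1 : ((s : ℝ) + 1) = (s' : ℝ) + 1 := by
        simp only [one_div] at h
        exact inv_injective h
      have h2 : (s : ℝ) = s' := by linarith
      exact_mod_cast h2
  have hf0 : (W * ∑ k, C (q k) * X ^ b k : ℝ[X]) = 0 := by
    rw [hprod]
    ext m
    rw [finsetSum_coeff, coeff_zero]
    have h1 := congrArg (fun P : ℝ[X] => P.coeff (m + 1)) hG0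
    simp only [hG] at h1
    rw [finsetSum_coeff, coeff_zero] at h1
    have h2 : ∑ p : Fin r × Fin r, (C (u p * ((e p).factorial : ℝ)) * X ^ (e p + 1) : ℝ[X]).coeff (m + 1) =
        (m.factorial : ℝ) * ∑ p : Fin r × Fin r, (C (u p) * X ^ e p : ℝ[X]).coeff m := by
      rw [Finset.mul_sum]
      refine Finset.sum_congr rfl fun p _ => ?_
      rw [coeff_C_mul, coeff_C_mul, coeff_X_pow, coeff_X_pow]
      by_cases h : m = e p
      · rw [if_pos (by omega), if_pos h, h]
        ring
      · rw [if_neg (by omega), if_neg h]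
        ring
    rw [h2] at h1
    rcases mul_eq_zero.1 h1 with h3 | h3
    · exact absurd h3 (hfa _)
    · exact h3
  exact (mul_ne_zero hW hq0) hf0

/-- **The minors do not vanish.** -/
theorem det_ne {r : ℕ} (m μ : Fin r → ℕ) (hm : Function.Injective m) (hμ : Function.Injective μ)
    (h2 : ∀ i, 2 ≤ m i) :
    Matrix.det (Matrix.of fun i k : Fin r => ((m i + μ k - 1).choose (μ k) : ℝ) * zr (m i + μ k)) ≠ 0 := by
  classical
  intro h0
  obtain ⟨w, hw0, hw⟩ := Matrix.exists_vecMul_eq_zero_iff.2 h0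
  apply hw0
  refine rows_indep (fun i => m i - 1) μ ?_ hμ ?_ w ?_
  · intro i i' h
    apply hm
    have h3 := h2 i
    have h4 := h2 i'
    simp only at h
    omega
  · intro i k
    have := h2 i
    omega
  · intro k
    have h3 := congrFun hw k
    rw [Matrix.vecMul, dotProduct, Pi.zero_apply] at h3
    rw [← h3]
    refine Finset.sum_congr rfl fun i _ => ?_
    have h4 := h2 i
    have e1 : m i - 1 + μ k = m i + μ k - 1 := by omega
    have e2 : m i + μ k - 1 + 1 = m i + μ k := by omega
    rw [Matrix.of_apply]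
    rw [e1, e2]

end

end Pool.Agent.Helper76.RJ
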