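import Pool.Agent.Helper76.RJ.Defs

/-!
# The zero estimate for jets
-/

set_option autoImplicit false

open Polynomial Pool.Agent.H337R2 Pool.Agent.W165.OZ Pool.Agent.Y926.LZ Pool.Agent.Y926.TW Filter

namespace Pool.Agent.Helper76.RJ

open Pool.Agent.N797.PW

noncomputable section

lemma etS_natDegree (n B e : ℕ) : (etS n B e).natDegree ≤ 2 * B := by
  unfold etS
  refine (Polynomial.natDegree_add_le _ _).trans (max_le ?_ ?_)
  · refine (Polynomial.natDegree_C_mul_le _ _).trans ?_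
    refine Polynomial.natDegree_mul_le.trans ?_
    have h1 := natDegree_sub_one_pow_le (B - e - 1)
    have h2 := natDegree_add_pow_le ((n : ℚ) - 1) B
    omega
  · refine Polynomial.natDegree_mul_le.trans ?_
    have h1 := natDegree_sub_one_pow_le B
    have h2 := natDegree_add_pow_le ((n : ℚ) - 1) (B - e - 1)
    omega

lemma etA_natDegree (a : ℕ → ℚ) (D n B β : ℕ) : (etA a D n B β).natDegree ≤ 2 * B := by
  unfold etA
  refine Polynomial.natDegree_sum_le_of_forall_le _ _ fun l _ => ?_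
  exact (Polynomial.natDegree_C_mul_le _ _).trans (etS_natDegree n B (β + l))

/-- the coefficients of the combination of the numerators -/
def lam (a : ℕ → ℚ) (D b : ℕ) {M : ℕ} (κ : Fin M → ℚ) (e : ℕ) : ℚ :=
  ∑ m : Fin M, ∑ l ∈ Finset.range (D + 1),
    if b + 2 * (m : ℕ) + l = e then κ m * (a l * (e.choose l : ℚ)) else 0

lemma lam_sum (a : ℕ → ℚ) (D b n B : ℕ) {M : ℕ} (κ : Fin M → ℚ) (hB : b + 2 * M + D ≤ B) :
    ∑ m : Fin M, C (κ m) * etA a D n B (b + 2 * (m : ℕ)) =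
      ∑ e ∈ Finset.range B, C (lam a D b κ e) * etS n B e := by
  unfold lam etA
  simp only [map_sum, Finset.sum_mul]
  rw [Finset.sum_comm]
  refine Finset.sum_congr rfl fun m _ => ?_
  rw [Finset.sum_comm, Finset.mul_sum]
  refine Finset.sum_congr rfl fun l hl => ?_
  have hl' := Finset.mem_range.1 hl
  have hm := m.2
  rw [Finset.sum_eq_single (b + 2 * (m : ℕ) + l)]
  · rw [if_pos rfl]
    simp only [map_mul]
    ring
  · intro e _ hne
    rw [if_neg (fun h => hne h.symm), map_zero, zero_mul]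
  · intro hn
    exact absurd (Finset.mem_range.2 (by omega)) hn

lemma lam_zero {a : ℕ → ℚ} {D b B M : ℕ} {κ : Fin M → ℚ} (hB : b + 2 * M + D ≤ B)
    (ha : ∃ l, l ≤ D ∧ a l ≠ 0 ∧ Even (b + l)) (h : ∀ e < B, Even e → lam a D b κ e = 0) : κ = 0 := by
  classical
  by_contra hκ
  obtain ⟨m1, hm1⟩ : ∃ m, κ m ≠ 0 := by
    by_contra hc
    push Not at hc
    exact hκ (funext hc)
  have hex : ∃ m : ℕ, ∃ hm : m < M, κ ⟨m, hm⟩ ≠ 0 := ⟨m1, m1.2, hm1⟩
  obtain ⟨m0, ⟨hm0, hκ0⟩, hmin⟩ : ∃ m0 : ℕ, (∃ hm : m0 < M, κ ⟨m0, hm⟩ ≠ 0) ∧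
      ∀ m < m0, ¬ ∃ hm : m < M, κ ⟨m, hm⟩ ≠ 0 := ⟨Nat.find hex, Nat.find_spec hex, fun m hm => Nat.find_min hex hm⟩
  obtain ⟨l0, ⟨hl0, hal0, hev⟩, hlmin⟩ : ∃ l0 : ℕ, (l0 ≤ D ∧ a l0 ≠ 0 ∧ Even (b + l0)) ∧
      ∀ l < l0, ¬ (l ≤ D ∧ a l ≠ 0 ∧ Even (b + l)) :=
    ⟨Nat.find ha, Nat.find_spec ha, fun l hl => Nat.find_min ha hl⟩
  obtain ⟨e, he⟩ : ∃ e, e = b + 2 * m0 + l0 := ⟨_, rfl⟩
  have hee : Even e := by
    rw [he, show b + 2 * m0 + l0 = (b + l0) + 2 * m0 by ring]
    exact hev.add (even_two_mul _)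
  have h1 := h e (by omega) hee
  unfold lam at h1
  rw [Finset.sum_eq_single (⟨m0, hm0⟩ : Fin M), Finset.sum_eq_single l0] at h1
  · rw [if_pos (by simp [he])] at h1
    rcases mul_eq_zero.1 h1 with h2 | h2
    · exact hκ0 h2
    · rcases mul_eq_zero.1 h2 with h3 | h3
      · exact hal0 h3
      · have : 0 < e.choose l0 := Nat.choose_pos (by omega)
        have h4 : e.choose l0 = 0 := by exact_mod_cast h3
        omega
  · intro l _ hne
    rw [if_neg]
    intro h2
    simp only at h2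
    omega
  · intro hn
    exact absurd (Finset.mem_range.2 (by omega)) hn
  · intro m _ hne
    refine Finset.sum_eq_zero fun l hl => ?_
    have hl' := Finset.mem_range.1 hl
    split_ifs with h2
    · rcases lt_trichotomy (m : ℕ) m0 with h3 | h3 | h3
      · have h4 : κ m = 0 := by
          by_contra hc
          exact hmin m h3 ⟨m.2, hc⟩
        rw [h4, zero_mul]
      · exact absurd (Fin.ext h3) hne
      · have h4 : l < l0 := by omega
        have h5 : a l = 0 := by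
          by_contra hc
          refine hlmin l h4 ⟨by omega, hc, ?_⟩
          have h6 : b + l = b + l0 - 2 * ((m : ℕ) - m0) := by omega
          rw [h6]
          exact (Nat.even_sub (by omega)).2 ⟨fun _ => even_two_mul _, fun _ => hev⟩
        rw [h5]
        ring
    · rfl
  · intro hn
    exact absurd (Finset.mem_univ _) hn

/-- **The zero estimate.** -/
theorem ze (a z : ℕ → ℚ) (D h n b M B G : ℕ) (c : ℕ → ℕ → ℤ) (hn1 : 1 ≤ n) (hh : 1 ≤ h)
    (hMn : M < n) (hAS : AS h n c) (hNZ : NZ h n c) (hTA : TA h n c G) (hB : b + 2 * M + D ≤ B)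
    (ha : ∃ l, l ≤ D ∧ a l ≠ 0 ∧ Even (b + l))
    (hL : ∀ j < M, ∀ l ≤ G, LA a z D h n c (gq n l) (b + 2 * j) = 0)
    (hG : 2 * G + 3 ≤ n * (2 * h))
    (hineq : 2 * h * n + 2 * B * (M * (M + 1)) + 2 * h * M ^ 2 < (2 * G + 3) * (M + 1)) : False := by
  have hSY : S_SY := t_sy
  -- the polynomial `P`
  obtain ⟨hP0, hPd⟩ := t_pd h n c hn1 hh hNZ
  have hPdeg := hPd (2 * G + 1) (by omega) (fun f hf => LF_all hSY hn1 hAS hTA f hf)
  -- the polynomials `A`
  have hA : ∀ j : Fin M, ∃ A : ℚ[X], A.natDegree + (2 * G + 1) + 2 ≤ n * (2 * h) ∧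
      ∀ k < n, (PowerSeries.X : PowerSeries ℚ) ^ (2 * h) ∣
        TS (-(k : ℚ)) (PF h n c) * EB a z D h n (b + 2 * j) k - TS (-(k : ℚ)) A := by
    intro j
    apply t_du h n (2 * G + 1) c (fun k => EB a z D h n (b + 2 * j) k) hn1 hh (by omega)
    intro f hf
    have h1 := hSY h n G c (fun k => EA a z D h (b + 2 * j) k) hn1 hAS (fun l hl => by
      rw [← LA_eq a z D h n c (gq n l) (b + 2 * j)]
      exact hL j j.2 l hl) f hf
    exact h1
  choose A hA1 hA2 using hA
  -- the determinant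
  have hdet := t_det M n (2 * h) (2 * B) (n * (2 * h) - (2 * G + 3)) (PF h n c)
    (PjW n B) A (fun l : Fin M => etA a D n B (b + 2 * l))
    (fun k l => EB a z D h n (b + 2 * l) k) hMn (by omega) (fun l => by have := hA1 l; omega)
    (PjW_natDegree _ _) (fun l => etA_natDegree _ _ _ _ _) (fun k hk l => hA2 l k hk)
    (fun k hk l => EB_rcw a z D h n B (b + 2 * l) k (by have := l.2; omega) hk) (by
      obtain ⟨r, hr⟩ : ∃ r, n = M + r := ⟨n - M, by omega⟩
      obtain ⟨D', hD⟩ : ∃ D', n * (2 * h) = D' + (2 * G + 3) := ⟨n * (2 * h) - (2 * G + 3), by omega⟩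
      have e1 : n * (2 * h) - (2 * G + 3) = D' := by omega
      have e2 : n - M = r := by omega
      rw [e1, e2]
      have e3 : 2 * h * M * n = 2 * h * M * r + 2 * h * M ^ 2 := by rw [hr]; ring
      have e4 : 2 * h * M * n = M * (D' + (2 * G + 3)) := by rw [← hD]; ring
      have e5 : 2 * h * n = D' + (2 * G + 3) := by rw [← hD]; ring
      have e6 : (M + 1) * D' + 2 * B * (M * (M + 1)) + 2 * h * M ^ 2 <
          2 * h * M * r + 2 * h * M ^ 2 := by
        rw [← e3, e4]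
        have e7 : M * (D' + (2 * G + 3)) + (D' + (2 * G + 3)) = (M + 1) * D' + (2 * G + 3) * (M + 1) := by
          ring
        have e8 : D' + (2 * G + 3) + 2 * B * (M * (M + 1)) + 2 * h * M ^ 2 <
          (2 * G + 3) * (M + 1) := by rw [← e5]; exact hineq
        omega
      omega)
  obtain ⟨κ, u, v, hκ, hv, huv⟩ := t_semi M (PF h n c) (PjW n B) A
    (fun l : Fin M => etA a D n B (b + 2 * l)) hP0 (PjW_ne_zero _ _) hdet
  rw [lam_sum a D b n B κ hB] at huv
  exact hκ (lam_zero hB ha (pole_gen (lam a D b κ) u v hn1 hv huv))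

end

end Pool.Agent.Helper76.RJ
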